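import Pool.Agent.T2H75.NU.Defs

/-!
# Package B: the numerical index of a complex Banach space is at least 1/4
-/

namespace Pool.Agent.T2H75.NU

namespace BAux

variable {X : Type} [NormedAddCommGroup X] [NormedSpace ℂ X]

theorem le_numRadius (T : X →L[ℂ] X) {x : X} {f : X →L[ℂ] ℂ} (h : IsPair x f) :
    ‖f (T x)‖ ≤ numRadius T := by
  refine le_csSup ⟨‖T‖, ?_⟩ ⟨x, f, h, rfl⟩
  rintro r ⟨y, g, ⟨h1, h2, h3⟩, rfl⟩
  calc ‖g (T y)‖ ≤ ‖g‖ * ‖T y‖ := g.le_opNorm _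
    _ ≤ ‖g‖ * (‖T‖ * ‖y‖) := by gcongr; exact T.le_opNorm _
    _ = ‖T‖ := by rw [h1, h2]; ring

theorem numRadius_nonneg (T : X →L[ℂ] X) : 0 ≤ numRadius T := by
  apply Real.sSup_nonneg
  rintro r ⟨y, g, -, rfl⟩
  exact norm_nonneg _

theorem lower (T : X →L[ℂ] X) (z : ℂ) (x : X) :
    (1 - ‖z‖ * numRadius T) * ‖x‖ ≤ ‖((1 : X →L[ℂ] X) - z • T) x‖ := by
  by_cases hx : x = 0
  · simp [hx]
  have hn : ‖x‖ ≠ 0 := norm_ne_zero_iff.mpr hx
  obtain ⟨f, hf1, hf2⟩ := exists_dual_vector ℂ x hn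
  set y : X := ((‖x‖ : ℂ)⁻¹) • x with hy
  have hxy : x = (‖x‖ : ℂ) • y := by
    rw [hy, smul_smul, mul_inv_cancel₀ (by exact_mod_cast hn), one_smul]
  have hp : IsPair y f := by
    refine ⟨?_, hf1, ?_⟩
    · rw [hy, norm_smul, norm_inv, Complex.norm_real, norm_norm, inv_mul_cancel₀ hn]
    · rw [hy, map_smul, hf2, smul_eq_mul]
      exact inv_mul_cancel₀ (by exact_mod_cast hn)
  have h1 := le_numRadius T hp
  have h2 : ‖f (((1 : X →L[ℂ] X) - z • T) x)‖ ≤ ‖((1 : X →L[ℂ] X) - z • T) x‖ := by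
    calc _ ≤ ‖f‖ * ‖((1 : X →L[ℂ] X) - z • T) x‖ := f.le_opNorm _
      _ = _ := by rw [hf1, one_mul]
  refine le_trans ?_ h2
  have h3 : f (((1 : X →L[ℂ] X) - z • T) x) = (‖x‖ : ℂ) - z * ((‖x‖ : ℂ) * f (T y)) := by
    have : T x = (‖x‖ : ℂ) • T y := by
      conv_lhs => rw [hxy]
      rw [map_smul]
    simp only [_root_.sub_apply, _root_.one_apply_eq_self,
      _root_.smul_apply, map_sub, map_smul, this, hf2, smul_eq_mul]
    rfl
  rw [h3]
  have h4 : ‖z * ((‖x‖ : ℂ) * f (T y))‖ ≤ ‖z‖ * (‖x‖ * numRadius T) := by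
    rw [norm_mul, norm_mul, Complex.norm_real, norm_norm]
    gcongr
  have h5 : ‖(‖x‖ : ℂ)‖ = ‖x‖ := by rw [Complex.norm_real, norm_norm]
  calc (1 - ‖z‖ * numRadius T) * ‖x‖ = ‖x‖ - ‖z‖ * (‖x‖ * numRadius T) := by ring
    _ ≤ ‖(‖x‖ : ℂ)‖ - ‖z * ((‖x‖ : ℂ) * f (T y))‖ := by rw [h5]; linarith
    _ ≤ _ := norm_sub_norm_le _ _

theorem inv_bound (T : X →L[ℂ] X) (z : ℂ) (hz : ‖z‖ * numRadius T < 1) (S : X →L[ℂ] X)
    (hS : ((1 : X →L[ℂ] X) - z • T) * S = 1) : ‖S‖ ≤ (1 - ‖z‖ * numRadius T)⁻¹ := by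
  have h0 : 0 < 1 - ‖z‖ * numRadius T := by linarith
  refine ContinuousLinearMap.opNorm_le_bound _ (inv_nonneg.mpr h0.le) fun y => ?_
  have h1 := lower T z (S y)
  have h2 : ((1 : X →L[ℂ] X) - z • T) (S y) = y := by
    have := congrArg (fun A : X →L[ℂ] X => A y) hS
    simpa using this
  rw [h2] at h1
  rw [inv_mul_eq_div, le_div_iff₀ h0]
  linarith

theorem isUnit_one_sub [CompleteSpace X] [Nontrivial X] (T : X →L[ℂ] X) (z : ℂ)
    (hz : ‖z‖ * numRadius T < 1) : IsUnit ((1 : X →L[ℂ] X) - z • T) := by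
  have h0 : 0 < 1 - ‖z‖ * numRadius T := by linarith
  set M : ℝ := (1 - ‖z‖ * numRadius T)⁻¹ with hM
  have hM0 : 0 < M := inv_pos.mpr h0
  obtain ⟨N, hN⟩ := exists_nat_gt (‖z • T‖ * M)
  have hNr : (0 : ℝ) < N := lt_of_le_of_lt (by positivity) hN
  have key : ∀ k : ℕ, k ≤ N → IsUnit ((1 : X →L[ℂ] X) - ((k : ℂ) / N * z) • T) := by
    intro k
    induction k with
    | zero => intro _; simp
    | succ k ih =>
      intro hk
      obtain ⟨u, hu⟩ := ih (by omega)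
      have hkN : (k : ℝ) ≤ N := by exact_mod_cast (by omega : k ≤ N)
      have hle : ‖(k : ℂ) / N * z‖ * numRadius T ≤ ‖z‖ * numRadius T := by
        have : ‖(k : ℂ) / N * z‖ ≤ ‖z‖ := by
          rw [norm_mul, norm_div, Complex.norm_natCast, Complex.norm_natCast]
          have : (k : ℝ) / N ≤ 1 := by rw [div_le_one hNr]; exact hkN
          calc (k : ℝ) / N * ‖z‖ ≤ 1 * ‖z‖ := by gcongr
            _ = ‖z‖ := one_mul _
        have h := numRadius_nonneg T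
        gcongr
      have hb := inv_bound T ((k : ℂ) / N * z) (by linarith) (↑u⁻¹) (by rw [← hu]; simp)
      have hb' : ‖(↑u⁻¹ : X →L[ℂ] X)‖ ≤ M := by
        refine hb.trans ?_
        rw [hM]
        gcongr
      have hpos : 0 < ‖(↑u⁻¹ : X →L[ℂ] X)‖ := norm_pos_iff.mpr (Units.ne_zero _)
      refine ⟨Units.ofNearby u ((1 : X →L[ℂ] X) - (((k + 1 : ℕ) : ℂ) / N * z) • T) ?_, by simp⟩
      have he : ((1 : X →L[ℂ] X) - (((k + 1 : ℕ) : ℂ) / N * z) • T) - u
          = -(((N : ℂ)⁻¹) • (z • T)) := by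
        rw [hu, smul_smul]
        have : (((k + 1 : ℕ) : ℂ) / N * z) = (k : ℂ) / N * z + (N : ℂ)⁻¹ * z := by
          push_cast
          ring
        rw [this, add_smul]
        abel
      rw [he, norm_neg, norm_smul, norm_inv, Complex.norm_natCast]
      calc (N : ℝ)⁻¹ * ‖z • T‖ < M⁻¹ := by
            rw [inv_mul_eq_div, div_lt_iff₀ hNr, inv_mul_eq_div, lt_div_iff₀ hM0]
            exact hN
        _ ≤ ‖(↑u⁻¹ : X →L[ℂ] X)‖⁻¹ := by gcongr
  have h := key N le_rfl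
  have hNc : (N : ℂ) ≠ 0 := by exact_mod_cast hNr.ne'
  rwa [div_self hNc, one_mul] at h

theorem bound [CompleteSpace X] [Nontrivial X] (T : X →L[ℂ] X) {w : ℝ} (hw : 0 < w)
    (hTw : numRadius T ≤ w) : ‖T‖ ≤ 4 * w := by
  set R : ℝ := (2 * w)⁻¹ with hR
  have hR0 : 0 < R := by positivity
  have hRw : R * w = 1 / 2 := by rw [hR]; field_simp
  have hz : ∀ z : ℂ, z ∈ Metric.closedBall (0 : ℂ) R → ‖z‖ * numRadius T ≤ 1 / 2 := by
    intro z hz
    rw [mem_closedBall_zero_iff] at hz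
    have h := numRadius_nonneg T
    calc ‖z‖ * numRadius T ≤ R * w := by gcongr
      _ = 1 / 2 := hRw
  let F : ℂ → (X →L[ℂ] X) := fun z => Ring.inverse (1 - z • T)
  have hF : DifferentiableOn ℂ F (Metric.closedBall 0 R) := by
    intro z hzm
    have hu := isUnit_one_sub T z (by have := hz z hzm; linarith)
    have h1 : DifferentiableAt ℂ (Ring.inverse : (X →L[ℂ] X) → (X →L[ℂ] X))
      ((1 : X →L[ℂ] X) - z • T) := differentiableAt_inverse hu
    have h2 : DifferentiableAt ℂ (fun z : ℂ => (1 : X →L[ℂ] X) - z • T) z := by fun_prop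
    exact (DifferentiableAt.comp z h1 h2).differentiableWithinAt
  have hC : ∀ z ∈ Metric.sphere (0 : ℂ) R, ‖F z‖ ≤ 2 := by
    intro z hzm
    have hle := hz z (Metric.sphere_subset_closedBall hzm)
    have hu := isUnit_one_sub T z (by linarith)
    have hb := inv_bound T z (by linarith) (F z) (Ring.mul_inverse_cancel _ hu)
    refine hb.trans ?_
    rw [inv_le_comm₀ (by linarith) (by norm_num)]
    linarith
  have hd : deriv F 0 = T := by
    have h1 := hasFDerivAt_ringInverse (𝕜 := ℂ) (1 : (X →L[ℂ] X)ˣ)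
    have h2 : HasDerivAt (fun z : ℂ => (1 : X →L[ℂ] X) - z • T) (-T) 0 := by
      have := ((hasDerivAt_id (0 : ℂ)).smul_const T).const_sub (1 : X →L[ℂ] X)
      simpa using this
    have h1' : HasFDerivAt (Ring.inverse : (X →L[ℂ] X) → (X →L[ℂ] X))
        (-ContinuousLinearMap.mulLeftRight ℂ (X →L[ℂ] X) ↑(1 : (X →L[ℂ] X)ˣ)⁻¹
          ↑(1 : (X →L[ℂ] X)ˣ)⁻¹) ((1 : X →L[ℂ] X) - (0 : ℂ) • T) := by
      simpa using h1
    have h3 := h1'.comp_hasDerivAt (0 : ℂ) h2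
    have h4 := h3.deriv
    have h5 : (Ring.inverse ∘ fun z : ℂ => (1 : X →L[ℂ] X) - z • T) = F := rfl
    rw [h5] at h4
    rw [h4]
    simp
  have h := Complex.norm_deriv_le_of_forall_mem_sphere_norm_le hR0
    (hF.diffContOnCl_ball subset_rfl) hC
  rw [hd] at h
  refine h.trans (le_of_eq ?_)
  rw [hR]
  field_simp
  norm_num

end BAux

open BAux in
theorem b_stmt : BStmt := by
  intro X _ _ _ T
  rcases subsingleton_or_nontrivial X with hX | hX
  · have : T = 0 := Subsingleton.elim _ _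
    rw [this, norm_zero]
    have := numRadius_nonneg (0 : X →L[ℂ] X)
    linarith
  · refine le_of_forall_pos_le_add fun ε hε => ?_
    have h0 := numRadius_nonneg T
    have := bound T (w := numRadius T + ε / 4) (by linarith) (by linarith)
    linarith

end Pool.Agent.T2H75.NU
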