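import Pool.Agent.T2H75.NU.Defs

/-!
# Package A: BPBp-nu for spaces with a quantitative convexity and smoothness of power type 2
-/

open Filter Topology

namespace Pool.Agent.T2H75.NU

variable {X : Type} [NormedAddCommGroup X] [NormedSpace ℂ X]

theorem pair_le_norm (T : X →L[ℂ] X) {x : X} {f : X →L[ℂ] ℂ} (h : IsPair x f) :
    ‖f (T x)‖ ≤ ‖T‖ := by
  obtain ⟨h1, h2, -⟩ := h
  calc ‖f (T x)‖ ≤ ‖f‖ * ‖T x‖ := f.le_opNorm _
    _ ≤ ‖f‖ * (‖T‖ * ‖x‖) := by gcongr; exact T.le_opNorm _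
    _ = ‖T‖ := by rw [h1, h2]; ring

theorem bdd_num (T : X →L[ℂ] X) :
    BddAbove {r : ℝ | ∃ (x : X) (f : X →L[ℂ] ℂ), IsPair x f ∧ r = ‖f (T x)‖} := by
  refine ⟨‖T‖, ?_⟩
  rintro r ⟨x, f, h, rfl⟩
  exact pair_le_norm T h

theorem le_numR (T : X →L[ℂ] X) {x : X} {f : X →L[ℂ] ℂ} (h : IsPair x f) :
    ‖f (T x)‖ ≤ numRadius T :=
  le_csSup (bdd_num T) ⟨x, f, h, rfl⟩

theorem numR_le (T : X →L[ℂ] X) {x : X} {f : X →L[ℂ] ℂ} (h : IsPair x f) {r : ℝ}
    (hr : ∀ (y : X) (g : X →L[ℂ] ℂ), IsPair y g → ‖g (T y)‖ ≤ r) : numRadius T ≤ r := by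
  refine csSup_le ⟨_, x, f, h, rfl⟩ ?_
  rintro s ⟨y, g, h', rfl⟩
  exact hr y g h'

theorem numR_near (T : X →L[ℂ] X) {x : X} {f : X →L[ℂ] ℂ} (h : IsPair x f) {e : ℝ} (he : 0 < e) :
    ∃ (y : X) (g : X →L[ℂ] ℂ), IsPair y g ∧ numRadius T - e ≤ ‖g (T y)‖ := by
  have hlt : numRadius T - e < numRadius T := by linarith
  have hne : {r : ℝ | ∃ (x : X) (f : X →L[ℂ] ℂ), IsPair x f ∧ r = ‖f (T x)‖}.Nonempty :=
    ⟨_, x, f, h, rfl⟩
  obtain ⟨s, ⟨y, g, h', rfl⟩, hs⟩ := exists_lt_of_lt_csSup hne hlt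
  exact ⟨y, g, h', hs.le⟩

theorem numR_lip (T S : X →L[ℂ] X) {x : X} {f : X →L[ℂ] ℂ} (h : IsPair x f) :
    numRadius T ≤ numRadius S + ‖T - S‖ := by
  refine numR_le T h fun y g h' => ?_
  have h1 : g (T y) = g (S y) + g ((T - S) y) := by
    simp
  calc ‖g (T y)‖ ≤ ‖g (S y)‖ + ‖g ((T - S) y)‖ := by rw [h1]; exact norm_add_le _ _
    _ ≤ numRadius S + ‖T - S‖ := add_le_add (le_numR S h') (pair_le_norm _ h')

/-- uniform convexity -/
theorem conv_pair {c C : ℝ} (hX : TwoConvexSmooth X c C) {x y : X} {f : X →L[ℂ] ℂ}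
    (h : IsPair x f) (hy : ‖y‖ = 1) {s t : ℝ} (hs : f y = (s : ℂ)) (hs0 : 0 ≤ s)
    (hst : 1 - t ≤ s) (ht : t ≤ 2) : c * ‖y - x‖ ^ 2 ≤ 4 * t := by
  obtain ⟨hx, hf, hfx⟩ := h
  have h1 := (hX ((1 / 2 : ℝ) • (x + y)) ((1 / 2 : ℝ) • (y - x))).1
  have e1 : (1 / 2 : ℝ) • (x + y) + (1 / 2 : ℝ) • (y - x) = y := by
    rw [← smul_add]
    rw [show x + y + (y - x) = (2 : ℝ) • y by rw [two_smul]; abel]
    rw [smul_smul]; norm_num
  have e2 : (1 / 2 : ℝ) • (x + y) - (1 / 2 : ℝ) • (y - x) = x := by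
    rw [← smul_sub]
    rw [show x + y - (y - x) = (2 : ℝ) • x by rw [two_smul]; abel]
    rw [smul_smul]; norm_num
  rw [e1, e2, hx, hy, norm_smul, norm_smul] at h1
  have h2 : 1 + s ≤ ‖x + y‖ := by
    have h3 : ‖f (x + y)‖ ≤ 1 * ‖x + y‖ := by rw [← hf]; exact f.le_opNorm _
    rw [map_add, hfx, hs] at h3
    have h4 : ‖(1 : ℂ) + (s : ℂ)‖ = 1 + s := by
      rw [show (1 : ℂ) + (s : ℂ) = ((1 + s : ℝ) : ℂ) by push_cast; ring, Complex.norm_real,
        Real.norm_eq_abs, abs_of_nonneg (by linarith)]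
    rw [h4] at h3
    linarith
  have hn : ‖(1 / 2 : ℝ)‖ = 1 / 2 := by norm_num
  rw [hn] at h1
  have h5 : (2 - t) ^ 2 ≤ ‖x + y‖ ^ 2 := by
    apply pow_le_pow_left₀ (by linarith)
    linarith
  nlinarith [sq_nonneg t]

/-- upper smoothness -/
theorem smooth_pair {c C : ℝ} (hX : TwoConvexSmooth X c C) {x : X} {f : X →L[ℂ] ℂ}
    (h : IsPair x f) (k : X) :
    1 + 2 * (f k).re ≤ ‖x + k‖ ^ 2 ∧ ‖x + k‖ ^ 2 ≤ 1 + 2 * (f k).re + 2 * C * ‖k‖ ^ 2 := by
  obtain ⟨hx, hf, hfx⟩ := h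
  have key : ∀ k : X, 1 + 2 * (f k).re ≤ ‖x + k‖ ^ 2 := by
    intro k
    have h3 : ‖f (x + k)‖ ≤ 1 * ‖x + k‖ := by rw [← hf]; exact f.le_opNorm _
    have h4 : |(f (x + k)).re| ≤ ‖f (x + k)‖ := Complex.abs_re_le_norm _
    rw [map_add, hfx] at h4 h3
    have h5 : ((1 : ℂ) + f k).re = 1 + (f k).re := by simp
    rw [h5] at h4
    have h6 : (1 + (f k).re) ^ 2 ≤ ‖x + k‖ ^ 2 := by
      apply sq_le_sq'
      · have := neg_abs_le (1 + (f k).re); linarith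
      · have := le_abs_self (1 + (f k).re); linarith
    nlinarith [sq_nonneg ((f k).re)]
  refine ⟨key k, ?_⟩
  have h1 := (hX x k).2
  have h2 := key (-k)
  rw [map_neg, Complex.neg_re, ← sub_eq_add_neg] at h2
  rw [hx] at h1
  nlinarith

/-- the duality map is Lipschitz -/
theorem dual_lip {c C : ℝ} (hX : TwoConvexSmooth X c C) {x y : X} {f g : X →L[ℂ] ℂ}
    (h : IsPair x f) (h' : IsPair y g) {d : ℝ} (hd : 0 < d) (hxy : ‖y - x‖ ≤ d) :
    ‖g - f‖ ≤ 4 * |C| * d := by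
  have key : ∀ k : X, ‖k‖ = d → ((g - f) k).re ≤ 4 * |C| * d ^ 2 := by
    intro k hk
    have h1 := (smooth_pair hX h' k).1
    have h2 := (smooth_pair hX h (y - x + k)).2
    rw [show x + (y - x + k) = y + k by abel] at h2
    have h3 : (f (y - x + k)).re ≤ (f k).re := by
      have h4 : f (y - x + k) = (f y - 1) + f k := by
        rw [map_add, map_sub, h.2.2]
      rw [h4, Complex.add_re, Complex.sub_re, Complex.one_re]
      have h5 : (f y).re ≤ 1 := by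
        calc (f y).re ≤ ‖f y‖ := Complex.re_le_norm _
          _ ≤ ‖f‖ * ‖y‖ := f.le_opNorm _
          _ = 1 := by rw [h.2.1, h'.1]; ring
      linarith
    have h6 : ‖y - x + k‖ ≤ 2 * d := by
      calc ‖y - x + k‖ ≤ ‖y - x‖ + ‖k‖ := norm_add_le _ _
        _ ≤ 2 * d := by rw [hk]; linarith
    have h7 : 2 * C * ‖y - x + k‖ ^ 2 ≤ 2 * |C| * (2 * d) ^ 2 := by
      have h8 : ‖y - x + k‖ ^ 2 ≤ (2 * d) ^ 2 := pow_le_pow_left₀ (norm_nonneg _) h6 2
      calc 2 * C * ‖y - x + k‖ ^ 2 ≤ 2 * |C| * ‖y - x + k‖ ^ 2 := by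
            gcongr; exact le_abs_self C
        _ ≤ 2 * |C| * (2 * d) ^ 2 := by gcongr
    have h9 : ((g - f) k).re = (g k).re - (f k).re := by simp
    rw [h9]
    nlinarith
  refine ContinuousLinearMap.opNorm_le_bound _ (by positivity) fun z => ?_
  rcases eq_or_ne z 0 with rfl | hz
  · simp
  have hz' : 0 < ‖z‖ := norm_pos_iff.mpr hz
  obtain ⟨w, hw, hw'⟩ := Complex.exists_norm_eq_mul_self ((g - f) z)
  have h1 := key (((d / ‖z‖ : ℝ) : ℂ) • (w • z)) (by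
    rw [norm_smul, norm_smul, hw, Complex.norm_real, Real.norm_eq_abs,
      abs_of_pos (by positivity)]
    field_simp)
  rw [map_smul, map_smul, smul_eq_mul, smul_eq_mul, ← hw', ← Complex.ofReal_mul,
    Complex.ofReal_re] at h1
  have h2 : d / ‖z‖ * ‖(g - f) z‖ * ‖z‖ = d * ‖(g - f) z‖ := by
    field_simp
  have h3 : d * ‖(g - f) z‖ ≤ d * (4 * |C| * d * ‖z‖) := by
    rw [← h2]
    calc d / ‖z‖ * ‖(g - f) z‖ * ‖z‖ ≤ 4 * |C| * d ^ 2 * ‖z‖ := by gcongr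
      _ = d * (4 * |C| * d * ‖z‖) := by ring
  exact le_of_mul_le_mul_left h3 hd

/-- one step -/
theorem step {c C : ℝ} (hX : TwoConvexSmooth X c C) (T : X →L[ℂ] X) {x : X} {f : X →L[ℂ] ℂ}
    (h : IsPair x f) {e e' δ : ℝ} (hn : numRadius T - e ≤ ‖f (T x)‖) (he : 0 < e')
    (hδ : 0 < δ) (hee : e + e' ≤ δ) :
    ∃ (T' : X →L[ℂ] X) (x' : X) (f' : X →L[ℂ] ℂ), IsPair x' f' ∧
      numRadius T' - e' ≤ ‖f' (T' x')‖ ∧ ‖T' - T‖ ≤ δ ∧ c * ‖x' - x‖ ^ 2 ≤ 4 * ((e + e') / δ) := by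
  obtain ⟨θ, hθ, hθ'⟩ := Complex.exists_norm_mul_eq_self (f (T x))
  set R : X →L[ℂ] X := ((δ : ℂ) * θ) • (f.smulRight x) with hR
  have hRn : ‖R‖ = δ := by
    rw [hR, norm_smul, ContinuousLinearMap.norm_smulRight_apply, h.1, h.2.1, norm_mul, hθ,
      Complex.norm_real, Real.norm_eq_abs, abs_of_pos hδ]
    ring
  have hfx := h.2.2
  have h1 : ‖f ((T + R) x)‖ = ‖f (T x)‖ + δ := by
    have : f ((T + R) x) = θ * ((‖f (T x)‖ + δ : ℝ) : ℂ) := by
      rw [_root_.add_apply, map_add, hR, _root_.smul_apply,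
        ContinuousLinearMap.smulRight_apply, hfx, one_smul, map_smul, hfx, smul_eq_mul]
      push_cast
      linear_combination -hθ'
    rw [this, norm_mul, hθ, Complex.norm_real, Real.norm_eq_abs,
      abs_of_nonneg (by positivity), one_mul]
  have h2 : numRadius T - e + δ ≤ numRadius (T + R) := by
    have := le_numR (T + R) h
    linarith
  obtain ⟨y, g, hyg, h3⟩ := numR_near (T + R) h he
  have h4 : ‖g ((T + R) y)‖ ≤ numRadius T + δ * ‖f y‖ := by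
    rw [_root_.add_apply, map_add]
    refine (norm_add_le _ _).trans (add_le_add (le_numR T hyg) ?_)
    rw [hR, _root_.smul_apply, ContinuousLinearMap.smulRight_apply, map_smul,
      map_smul, smul_eq_mul, smul_eq_mul, norm_mul, norm_mul, norm_mul, hθ, Complex.norm_real,
      Real.norm_eq_abs, abs_of_pos hδ, mul_one]
    have h5 : ‖g x‖ ≤ 1 := by
      calc ‖g x‖ ≤ ‖g‖ * ‖x‖ := g.le_opNorm _
        _ = 1 := by rw [hyg.2.1, h.1]; ring
    have h6 : 0 ≤ ‖f y‖ := norm_nonneg _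
    have h7 : ‖f y‖ * ‖g x‖ ≤ ‖f y‖ := by nlinarith
    gcongr
  obtain ⟨w, hw, hw'⟩ := Complex.exists_norm_eq_mul_self (f y)
  have hww : (starRingEnd ℂ w) * w = 1 := by
    rw [mul_comm, Complex.mul_conj, Complex.normSq_eq_norm_sq, hw]; norm_num
  have hwn : ‖starRingEnd ℂ w‖ = 1 := by rw [RCLike.norm_conj, hw]
  refine ⟨T + R, w • y, (starRingEnd ℂ w) • g, ⟨?_, ?_, ?_⟩, ?_, ?_, ?_⟩
  · rw [norm_smul, hw, hyg.1, one_mul]
  · rw [norm_smul, hwn, hyg.2.1, one_mul]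
  · rw [_root_.smul_apply, map_smul, hyg.2.2, smul_eq_mul, smul_eq_mul, mul_one, hww]
  · rw [_root_.smul_apply, map_smul, map_smul, smul_eq_mul, smul_eq_mul,
      ← mul_assoc, hww, one_mul]
    exact h3
  · rw [add_sub_cancel_left, hRn]
  · have h8 : 1 - (e + e') / δ ≤ ‖f y‖ := by
      have h9 : δ - (e + e') ≤ δ * ‖f y‖ := by linarith
      have h10 : 1 - (e + e') / δ = (δ - (e + e')) / δ := by field_simp
      rw [h10, div_le_iff₀ hδ]
      linarith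
    refine conv_pair hX h (y := w • y) (by rw [norm_smul, hw, hyg.1, one_mul]) (s := ‖f y‖) ?_
      (norm_nonneg _) h8 ?_
    · rw [map_smul, smul_eq_mul, hw']
    · have : (e + e') / δ ≤ 1 := by rw [div_le_one hδ]; exact hee
      linarith

theorem dep_choice {α : Type*} (P : ℕ → α → Prop) (R : ℕ → α → α → Prop) (a : α) (h0 : P 0 a)
    (hs : ∀ n a, P n a → ∃ b, P (n + 1) b ∧ R n a b) :
    ∃ u : ℕ → α, u 0 = a ∧ ∀ n, P n (u n) ∧ R n (u n) (u (n + 1)) := by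
  choose! F hF using hs
  let u : ℕ → α := fun n => Nat.rec a (fun n b => F n b) n
  have hu : ∀ n, P n (u n) := by
    intro n
    induction n with
    | zero => exact h0
    | succ n ih => exact (hF n _ ih).1
  exact ⟨u, rfl, fun n => ⟨hu n, (hF n _ (hu n)).2⟩⟩

theorem tend_app {Y : Type} [NormedAddCommGroup Y] [NormedSpace ℂ Y] {F : ℕ → X →L[ℂ] Y}
    {G : X →L[ℂ] Y} {z : ℕ → X} {w : X} (hF : Tendsto F atTop (𝓝 G))
    (hz : Tendsto z atTop (𝓝 w)) : Tendsto (fun n => F n (z n)) atTop (𝓝 (G w)) :=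
  (isBoundedBilinearMap_apply.continuous.tendsto (G, w)).comp (hF.prodMk_nhds hz)

theorem a_stmt : AStmt := by
  intro X _ _ _ c C M hc hX hM ε hε
  set K : ℝ := 4 * |C| with hK
  have hK0 : 0 ≤ K := by positivity
  set d0 : ℝ := min (1 / 4) (ε / (4 * (1 + |M|))) with hd0
  have hd0pos : 0 < d0 := by rw [hd0]; positivity
  have hd0a : d0 ≤ 1 / 4 := min_le_left _ _
  have hd0b : 4 * (1 + |M|) * d0 ≤ ε := by
    have : d0 ≤ ε / (4 * (1 + |M|)) := min_le_right _ _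
    rwa [le_div_iff₀ (by positivity), mul_comm] at this
  set ρ : ℝ := ε / (4 * (1 + K)) with hρ
  have hρpos : 0 < ρ := by rw [hρ]; positivity
  have hρb : 4 * (1 + K) * ρ = ε := by rw [hρ]; field_simp
  set e0 : ℝ := min (d0 / 2) (c * d0 * ρ ^ 2 / 8) with he0
  have he0pos : 0 < e0 := by rw [he0]; positivity
  have he0a : 2 * e0 ≤ d0 := by
    have : e0 ≤ d0 / 2 := min_le_left _ _
    linarith
  have he0b : 8 * e0 ≤ c * d0 * ρ ^ 2 := by
    have : e0 ≤ c * d0 * ρ ^ 2 / 8 := min_le_right _ _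
    linarith
  refine ⟨e0, he0pos, ?_⟩
  intro T hT x₀ f₀ h0 hne
  obtain ⟨u, hu0, hu⟩ := dep_choice
    (α := (X →L[ℂ] X) × X × (X →L[ℂ] ℂ))
    (fun n s => IsPair s.2.1 s.2.2 ∧ numRadius s.1 - e0 * (1 / 8) ^ n ≤ ‖s.2.2 (s.1 s.2.1)‖)
    (fun n s s' => ‖s'.1 - s.1‖ ≤ d0 * (1 / 2) ^ n ∧ ‖s'.2.1 - s.2.1‖ ≤ ρ * (1 / 2) ^ n ∧
      ‖s'.2.2 - s.2.2‖ ≤ K * (ρ * (1 / 2) ^ n))
    (T, x₀, f₀)
    ⟨h0, by
      simp only [pow_zero, mul_one]
      rw [hT]; exact hne.le⟩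
    (by
      rintro n ⟨T, x, f⟩ ⟨hp, hn⟩
      simp only at hp hn ⊢
      have h8 : (0 : ℝ) < (1 / 8) ^ n := by positivity
      have h2 : (0 : ℝ) < (1 / 2) ^ n := by positivity
      have h4 : (0 : ℝ) < (1 / 4) ^ n := by positivity
      have h84 : ((1 : ℝ) / 8) ^ n = (1 / 4) ^ n * (1 / 2) ^ n := by
        rw [← mul_pow]; norm_num
      have h41 : ((1 : ℝ) / 4) ^ n ≤ 1 := pow_le_one₀ (by norm_num) (by norm_num)
      have h44 : ((1 : ℝ) / 4) ^ n = ((1 / 2) ^ n) ^ 2 := by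
        rw [← pow_mul, mul_comm n 2, pow_mul]; norm_num
      have hsum : e0 * (1 / 8) ^ n + e0 * (1 / 8) ^ (n + 1) ≤
          2 * e0 * ((1 / 4) ^ n * (1 / 2) ^ n) := by
        rw [pow_succ, ← h84]
        nlinarith
      obtain ⟨T', x', f', hp', hn', hT', hx'⟩ := step hX T hp (e := e0 * (1 / 8) ^ n)
        (e' := e0 * (1 / 8) ^ (n + 1)) (δ := d0 * (1 / 2) ^ n) hn (by positivity)
        (by positivity) (by
          refine hsum.trans ?_
          calc 2 * e0 * ((1 / 4) ^ n * (1 / 2) ^ n) ≤ 2 * e0 * (1 * (1 / 2) ^ n) := by gcongr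
            _ = 2 * e0 * (1 / 2) ^ n := by ring
            _ ≤ d0 * (1 / 2) ^ n := by gcongr)
      have hxx : ‖x' - x‖ ≤ ρ * (1 / 2) ^ n := by
        have h5 : c * ‖x' - x‖ ^ 2 ≤ c * (ρ * (1 / 2) ^ n) ^ 2 := by
          refine hx'.trans ?_
          have h6 : (e0 * (1 / 8) ^ n + e0 * (1 / 8) ^ (n + 1)) / (d0 * (1 / 2) ^ n) ≤
              2 * e0 * (1 / 4) ^ n / d0 := by
            rw [div_le_div_iff₀ (by positivity) hd0pos]
            calc (e0 * (1 / 8) ^ n + e0 * (1 / 8) ^ (n + 1)) * d0 ≤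
                (2 * e0 * ((1 / 4) ^ n * (1 / 2) ^ n)) * d0 := by gcongr
              _ = 2 * e0 * (1 / 4) ^ n * (d0 * (1 / 2) ^ n) := by ring
          calc 4 * ((e0 * (1 / 8) ^ n + e0 * (1 / 8) ^ (n + 1)) / (d0 * (1 / 2) ^ n)) ≤
              4 * (2 * e0 * (1 / 4) ^ n / d0) := by gcongr
            _ = (8 * e0) * (1 / 4) ^ n / d0 := by ring
            _ ≤ (c * d0 * ρ ^ 2) * (1 / 4) ^ n / d0 := by gcongr
            _ = c * (ρ * (1 / 2) ^ n) ^ 2 := by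
              rw [h44]; field_simp
        have h7 : ‖x' - x‖ ^ 2 ≤ (ρ * (1 / 2) ^ n) ^ 2 := le_of_mul_le_mul_left h5 hc
        exact (sq_le_sq₀ (norm_nonneg _) (by positivity)).mp h7
      refine ⟨(T', x', f'), ⟨hp', hn'⟩, hT', hxx, ?_⟩
      exact dual_lip hX hp hp' (by positivity) hxx)
  have hpair := fun n => (hu n).1.1
  have hnum := fun n => (hu n).1.2
  -- limits
  have hdT : ∀ n, dist ((u n).1) ((u (n + 1)).1) ≤ (2 * d0) / 2 / 2 ^ n := by
    intro n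
    rw [dist_comm, dist_eq_norm]
    refine (hu n).2.1.trans (le_of_eq ?_)
    rw [one_div, inv_pow]; field_simp
  have hdx : ∀ n, dist ((u n).2.1) ((u (n + 1)).2.1) ≤ (2 * ρ) / 2 / 2 ^ n := by
    intro n
    rw [dist_comm, dist_eq_norm]
    refine (hu n).2.2.1.trans (le_of_eq ?_)
    rw [one_div, inv_pow]; field_simp
  have hdf : ∀ n, dist ((u n).2.2) ((u (n + 1)).2.2) ≤ (2 * (K * ρ)) / 2 / 2 ^ n := by
    intro n
    rw [dist_comm, dist_eq_norm]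
    refine (hu n).2.2.2.trans (le_of_eq ?_)
    rw [one_div, inv_pow]; field_simp
  obtain ⟨T', hT'⟩ := cauchySeq_tendsto_of_complete (cauchySeq_of_le_geometric_two hdT)
  obtain ⟨x', hx'⟩ := cauchySeq_tendsto_of_complete (cauchySeq_of_le_geometric_two hdx)
  obtain ⟨f', hf'⟩ := cauchySeq_tendsto_of_complete (cauchySeq_of_le_geometric_two hdf)
  have hTd : ‖T' - T‖ ≤ 2 * d0 := by
    have := dist_le_of_le_geometric_two_of_tendsto₀ hdT hT'
    rwa [hu0, dist_comm, dist_eq_norm] at this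
  have hxd : ‖x' - x₀‖ ≤ 2 * ρ := by
    have := dist_le_of_le_geometric_two_of_tendsto₀ hdx hx'
    rwa [hu0, dist_comm, dist_eq_norm] at this
  have hfd : ‖f' - f₀‖ ≤ 2 * (K * ρ) := by
    have := dist_le_of_le_geometric_two_of_tendsto₀ hdf hf'
    rwa [hu0, dist_comm, dist_eq_norm] at this
  have hTx : Tendsto (fun n => (u n).1 (u n).2.1) atTop (𝓝 (T' x')) := tend_app hT' hx'
  have hfTx : Tendsto (fun n => (u n).2.2 ((u n).1 (u n).2.1)) atTop (𝓝 (f' (T' x'))) :=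
    tend_app hf' hTx
  have hp' : IsPair x' f' := by
    refine ⟨?_, ?_, ?_⟩
    · refine tendsto_nhds_unique hx'.norm ?_
      simp only [(hpair _).1]
      exact tendsto_const_nhds
    · refine tendsto_nhds_unique hf'.norm ?_
      simp only [(hpair _).2.1]
      exact tendsto_const_nhds
    · refine tendsto_nhds_unique (tend_app hf' hx') ?_
      simp only [(hpair _).2.2]
      exact tendsto_const_nhds
  have hatt : ∀ (y : X) (g : X →L[ℂ] ℂ), IsPair y g → ‖g (T' y)‖ ≤ ‖f' (T' x')‖ := by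
    intro y g hg
    have h1 : Tendsto (fun n => ‖g ((u n).1 y)‖) atTop (𝓝 ‖g (T' y)‖) :=
      ((g.continuous.tendsto _).comp (tend_app hT' tendsto_const_nhds)).norm
    have h2 : Tendsto (fun n => ‖(u n).2.2 ((u n).1 (u n).2.1)‖ + e0 * (1 / 8 : ℝ) ^ n) atTop
        (𝓝 (‖f' (T' x')‖ + e0 * 0)) :=
      hfTx.norm.add ((tendsto_pow_atTop_nhds_zero_of_lt_one (by norm_num)
        (by norm_num)).const_mul e0)
    rw [mul_zero, add_zero] at h2
    refine le_of_tendsto_of_tendsto' h1 h2 fun n => ?_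
    have h3 := le_numR ((u n).1) hg
    have h4 := hnum n
    linarith
  have hν : numRadius T' = ‖f' (T' x')‖ :=
    le_antisymm (numR_le T' hp' hatt) (le_numR T' hp')
  have hν1 : 1 ≤ numRadius T' + 2 * d0 := by
    have := numR_lip T T' hp'
    rw [hT, ← norm_neg, neg_sub] at this
    linarith
  have hν2 : numRadius T' ≤ 1 + 2 * d0 := by
    have := numR_lip T' T hp'
    rw [hT] at this
    linarith
  set v : ℝ := numRadius T' with hv
  have hvpos : 0 < v := by linarith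
  have hvn : ‖((v⁻¹ : ℝ) : ℂ)‖ = v⁻¹ := by
    rw [Complex.norm_real, Real.norm_eq_abs, abs_of_pos (by positivity)]
  refine ⟨((v⁻¹ : ℝ) : ℂ) • T', x', f', hp', ?_, ?_, ?_, ?_, ?_⟩
  · apply le_antisymm
    · refine numR_le _ hp' fun y g hg => ?_
      rw [_root_.smul_apply, map_smul, norm_smul, hvn]
      calc v⁻¹ * ‖g (T' y)‖ ≤ v⁻¹ * v := by
            gcongr; exact le_numR T' hg
        _ = 1 := inv_mul_cancel₀ hvpos.ne'
    · have := le_numR (((v⁻¹ : ℝ) : ℂ) • T') hp'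
      rw [_root_.smul_apply, map_smul, norm_smul, hvn, ← hν,
        inv_mul_cancel₀ hvpos.ne'] at this
      exact this
  · rw [_root_.smul_apply, map_smul, norm_smul, hvn, ← hν,
      inv_mul_cancel₀ hvpos.ne']
  · have h1 : ((v⁻¹ : ℝ) : ℂ) • T' - T = ((v⁻¹ - 1 : ℝ) : ℂ) • T' + (T' - T) := by
      push_cast
      rw [sub_smul, one_smul]; abel
    rw [h1]
    have h2 : ‖((v⁻¹ - 1 : ℝ) : ℂ) • T'‖ ≤ 2 * d0 * |M| := by
      rw [norm_smul, Complex.norm_real, Real.norm_eq_abs]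
      have h3 : |v⁻¹ - 1| * v ≤ 2 * d0 := by
        have h4 : |v⁻¹ - 1| * v = |1 - v| := by
          rw [← abs_of_pos hvpos, ← abs_mul, abs_of_pos hvpos]
          congr 1
          field_simp
        rw [h4, abs_le]
        constructor <;> linarith
      calc |v⁻¹ - 1| * ‖T'‖ ≤ |v⁻¹ - 1| * (|M| * v) := by
            gcongr
            refine (hM T').trans ?_
            gcongr
            exact le_abs_self M
        _ = |v⁻¹ - 1| * v * |M| := by ring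
        _ ≤ 2 * d0 * |M| := by gcongr
    calc ‖((v⁻¹ - 1 : ℝ) : ℂ) • T' + (T' - T)‖ ≤ 2 * d0 * |M| + 2 * d0 :=
          (norm_add_le _ _).trans (add_le_add h2 hTd)
      _ < ε := by nlinarith [abs_nonneg M]
  · calc ‖x' - x₀‖ ≤ 2 * ρ := hxd
      _ < ε := by nlinarith
  · calc ‖f' - f₀‖ ≤ 2 * (K * ρ) := hfd
      _ < ε := by nlinarith

end Pool.Agent.T2H75.NU
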