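import Pool.Agent.T2H75.NU.Op
import Pool.Agent.T2H75.NU.A

/-!
# The space fails property (nu)
-/

namespace Pool.Agent.T2H75.NU

open scoped ENNReal

lemma exists_del (r : ℝ) (hr : 0 < r) : ∃ n : ℕ, del n ≤ r := by
  obtain ⟨n, hn⟩ := exists_nat_gt (1 / r)
  refine ⟨n, ?_⟩
  unfold del
  rw [div_le_iff₀ (by positivity)]
  have h1 : 1 < n * r := by rwa [div_lt_iff₀ hr] at hn
  nlinarith

lemma en_le_norm {n : ℕ} (x : Blk n) : en x.val ≤ 1.001 * ‖x‖ := by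
  have h := (Nsq_bounds (del_pos n) (del_le_one n) x.val).1
  have h2 := Blk.norm_sq x
  have h3 := norm_nonneg x
  unfold en
  apply Real.sqrt_le_iff.2
  refine ⟨by positivity, ?_⟩
  nlinarith

lemma norm_le_en {n : ℕ} (x : Blk n) : ‖x‖ ≤ 1.001 * en x.val := by
  have h := (Nsq_bounds (del_pos n) (del_le_one n) x.val).2
  have h2 := Blk.norm_sq x
  have h3 := en_nonneg x.val
  have h4 := en_sq x.val
  apply le_of_sq_le_sq _ (by positivity)
  nlinarith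

lemma norm_fst_le_en (x : ℂ × ℂ) : ‖x.1‖ ≤ en x := by
  unfold en
  apply Real.le_sqrt_of_sq_le
  unfold nsq
  have := sq_nonneg ‖x.2‖
  linarith

lemma norm_snd_le_en (x : ℂ × ℂ) : ‖x.2‖ ≤ en x := by
  unfold en
  apply Real.le_sqrt_of_sq_le
  unfold nsq
  have := sq_nonneg ‖x.1‖
  linarith

lemma en_swp (x : ℂ × ℂ) : en (swp x) = en x := by unfold en; rw [nsq_swp]

theorem not_nu : ¬ PropertyNu ℂ XX := by
  intro hnu
  obtain ⟨e₀, d₀, he₀, hd₀, he9, hno⟩ := no_fixed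
  obtain ⟨η, hη, hP⟩ := hnu (e₀ / 20) (by positivity)
  obtain ⟨n, hn⟩ := exists_del (min d₀ (min (e₀ / 400) (η / 40))) (by positivity)
  have hn1 : del n ≤ d₀ := hn.trans (min_le_left _ _)
  have hn2 : del n ≤ e₀ / 400 := hn.trans ((min_le_right _ _).trans (min_le_left _ _))
  have hn3 : del n ≤ η / 40 := hn.trans ((min_le_right _ _).trans (min_le_right _ _))
  have hdp := del_pos n
  obtain ⟨T, X₀, m, hm1, hm2, hT, hX₀, hTX, hdist, hTs, hx1, hx2⟩ := exists_op n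
  -- the functional
  have hTX0 : ‖T X₀‖ ≠ 0 := by
    rw [hTX]; norm_num
  obtain ⟨f₀, hf₀, hf₀v⟩ := exists_dual_vector ℂ (T X₀) hTX0
  have hre : 1 - η < RCLike.re (f₀ X₀) := by
    have h1 : f₀ X₀ = f₀ (T X₀) + f₀ (X₀ - T X₀) := by rw [← map_add]; congr 1; abel
    have h2 : ‖f₀ (X₀ - T X₀)‖ ≤ 20 * del n := by
      calc _ ≤ ‖f₀‖ * ‖X₀ - T X₀‖ := f₀.le_opNorm _
        _ ≤ 1 * (20 * del n) := by rw [hf₀]; gcongr
        _ = _ := one_mul _
    have h3 : -(20 * del n) ≤ (f₀ (X₀ - T X₀)).re :=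
      (neg_le_neg h2).trans (neg_le_of_abs_le (Complex.abs_re_le_norm _))
    have h4 : (f₀ (T X₀)).re = 1 := by
      rw [hf₀v, hTX]; simp
    show 1 - η < (f₀ X₀).re
    rw [h1, Complex.add_re, h4]
    linarith
  have hf1 : ‖f₀ (T X₀)‖ = 1 := by rw [hf₀v, hTX]; simp
  obtain ⟨x₁, f₁, S, hx₁, hf₁, hS, hfS, hfx, hxd, hfd, hSd⟩ := hP T X₀ f₀ hT hX₀ hf₀ hre hf1
  set ε := e₀ / 20 with hε
  -- eigenvector
  set μ := f₁ (S x₁) with hμ
  have hμμ : starRingEnd ℂ μ * μ = 1 := conj_mul_self hfS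
  set y := starRingEnd ℂ μ • S x₁ with hy
  have hSle : ∀ x, ‖S x‖ ≤ ‖x‖ := fun x => by
    have := S.le_opNorm x; rwa [hS, one_mul] at this
  have hcμ : ‖starRingEnd ℂ μ‖ = 1 := by rw [RCLike.norm_conj]; exact hfS
  have hfy : f₁ y = ((1 : ℝ) : ℂ) := by
    rw [hy, map_smul, smul_eq_mul, ← hμ, hμμ]; simp
  have hyn : ‖y‖ = 1 := by
    apply le_antisymm
    · rw [hy, norm_smul, hcμ, one_mul]; exact (hSle x₁).trans hx₁.le
    · have h := f₁.le_opNorm y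
      rw [hfy, hf₁, one_mul] at h
      simpa using h
  have hyx : y = x₁ := by
    have h := conv_pair two_XX (x := x₁) (y := y) (f := f₁) ⟨hx₁, hf₁, hfx⟩ hyn hfy zero_le_one
      (t := 0) (by norm_num) (by norm_num)
    have h2 : ‖y - x₁‖ ^ 2 ≤ 0 := by linarith
    have h3 : ‖y - x₁‖ = 0 := by
      have := sq_nonneg ‖y - x₁‖
      exact pow_eq_zero_iff (two_ne_zero) |>.1 (le_antisymm h2 this)
    exact sub_eq_zero.1 (norm_eq_zero.1 h3)
  set S' : XX →L[ℂ] XX := starRingEnd ℂ μ • S with hS'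
  have hS'x : S' x₁ = x₁ := hyx
  have hS'le : ∀ x, ‖S' x‖ ≤ ‖x‖ := fun x => by
    show ‖starRingEnd ℂ μ • S x‖ ≤ ‖x‖
    rw [norm_smul, hcμ, one_mul]; exact hSle x
  have hSx : S x₁ = μ • x₁ := by
    have : μ • y = S x₁ := by
      rw [hy, smul_smul, mul_comm, hμμ, one_smul]
    rw [← this, hyx]
  -- `μ` is close to `1`
  have hST : ∀ x, ‖S x - T x‖ ≤ ε * ‖x‖ := fun x => by
    have := (S - T).le_opNorm x
    calc ‖S x - T x‖ = ‖(S - T) x‖ := rfl
      _ ≤ ‖S - T‖ * ‖x‖ := this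
      _ ≤ ε * ‖x‖ := by gcongr
  have hTle : ∀ x, ‖T x‖ ≤ ‖x‖ := fun x => by
    have := T.le_opNorm x; rwa [hT, one_mul] at this
  have hμ1 : ‖μ - 1‖ ≤ 3 * ε + 20 * del n := by
    have h1 : ‖μ - 1‖ = ‖S x₁ - x₁‖ := by
      rw [hSx]
      have : μ • x₁ - x₁ = (μ - 1) • x₁ := by rw [sub_smul, one_smul]
      rw [this, norm_smul, hx₁, mul_one]
    rw [h1]
    have h2 : S x₁ - x₁ = (S x₁ - T x₁) + T (x₁ - X₀) + (T X₀ - X₀) + (X₀ - x₁) := by
      rw [map_sub]; abel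
    rw [h2]
    have g1 := hST x₁
    rw [hx₁, mul_one] at g1
    have g2 := hTle (x₁ - X₀)
    have g3 : ‖T X₀ - X₀‖ ≤ 20 * del n := by rw [norm_sub_rev]; exact hdist
    have g4 : ‖X₀ - x₁‖ ≤ ε := by rw [norm_sub_rev]; exact hxd.le
    calc _ ≤ ‖S x₁ - T x₁‖ + ‖T (x₁ - X₀)‖ + ‖T X₀ - X₀‖ + ‖X₀ - x₁‖ := norm_add₄_le
      _ ≤ ε + ε + 20 * del n + ε := by
          gcongr
          exact g2.trans hxd.le
      _ = _ := by ring
  -- apply `no_fixed`
  refine hno n hn1 S' x₁ hS'le hS'x ?_ ?_ ?_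
  · intro v
    set g : XX := lp.single 2 n (Blk.mk n v) with hg
    have hgn : ‖g‖ ≤ 1.001 * en v := by
      rw [hg, lp.norm_single (by norm_num)]
      exact norm_le_en _
    have e1 : comp S' n v - swp v = ((S' g - T g) n + ((m⁻¹ - 1 : ℝ) : ℂ) • Blk.mk n (swp v)).val := by
      have : (T g) n = ((m⁻¹ : ℝ) : ℂ) • Blk.mk n (swp v) := by
        rw [hTs v]
        show ((m⁻¹ : ℝ) : ℂ) • (lp.single 2 n (Blk.mk n (swp v)) : XX) n = _
        rw [lp.single_apply_self]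
      have h2 : (S' g - T g) n = (S' g) n - (T g) n := rfl
      rw [h2, this]
      have h3 : (S' g) n - ((m⁻¹ : ℝ) : ℂ) • Blk.mk n (swp v) + ((m⁻¹ - 1 : ℝ) : ℂ) • Blk.mk n (swp v)
          = (S' g) n - Blk.mk n (swp v) := by
        push_cast; rw [sub_smul, one_smul]; abel
      rw [h3]; rfl
    rw [e1]
    refine (en_le_norm _).trans ?_
    have h1 : ‖(S' g - T g) n‖ ≤ (4 * ε + 20 * del n) * ‖g‖ := by
      calc ‖(S' g - T g) n‖ ≤ ‖S' g - T g‖ := lp.norm_apply_le_norm (by norm_num) _ n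
        _ = ‖(starRingEnd ℂ μ - 1) • S g + (S g - T g)‖ := by
            congr 1
            show starRingEnd ℂ μ • S g - T g = _
            rw [sub_smul, one_smul]; abel
        _ ≤ ‖(starRingEnd ℂ μ - 1) • S g‖ + ‖S g - T g‖ := norm_add_le _ _
        _ ≤ (3 * ε + 20 * del n) * ‖g‖ + ε * ‖g‖ := by
            gcongr
            · rw [norm_smul]
              have : ‖starRingEnd ℂ μ - 1‖ = ‖μ - 1‖ := by
                rw [← RCLike.norm_conj (μ - 1), map_sub, map_one]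
              rw [this]
              gcongr
              exact hSle g
            · exact hST g
        _ = _ := by ring
    have hmi : |m⁻¹ - 1| ≤ del n := by
      have hmp : 0 < m := by linarith
      have h2 : m⁻¹ ≤ 1 := inv_le_one_of_one_le₀ hm1
      have h3 : 1 - del n ≤ m⁻¹ := by
        rw [inv_eq_one_div, le_div_iff₀ hmp]; nlinarith
      rw [abs_le]; constructor <;> linarith
    have h2 : ‖((m⁻¹ - 1 : ℝ) : ℂ) • Blk.mk n (swp v)‖ ≤ del n * (1.001 * en v) := by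
      rw [norm_smul, Complex.norm_real, Real.norm_eq_abs]
      have := norm_le_en (Blk.mk n (swp v))
      rw [Blk.val_mk, en_swp] at this
      gcongr
    have hev := en_nonneg v
    have hεd : 4 * ε + 20 * del n ≤ e₀ / 4 := by rw [hε]; linarith
    calc 1.001 * ‖(S' g - T g) n + ((m⁻¹ - 1 : ℝ) : ℂ) • Blk.mk n (swp v)‖
        ≤ 1.001 * ((4 * ε + 20 * del n) * ‖g‖ + del n * (1.001 * en v)) := by
          gcongr
          exact (norm_add_le _ _).trans (add_le_add h1 h2)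
      _ ≤ 1.001 * ((e₀ / 4) * (1.001 * en v) + (e₀ / 400) * (1.001 * en v)) := by
          gcongr
      _ ≤ e₀ * en v := by nlinarith [mul_nonneg he₀.le hev]
  · have h1 : ‖(x₁ - X₀) n‖ ≤ ε := (lp.norm_apply_le_norm (by norm_num) _ n).trans hxd.le
    have h2 := (norm_fst_le_en _).trans (en_le_norm ((x₁ - X₀) n))
    have h3 : ((x₁ - X₀) n).val.1 = (x₁ n).val.1 - (X₀ n).val.1 := rfl
    rw [h3] at h2
    have h4 : (x₁ n).val.1 - ((Real.sqrt 2 / 2 : ℝ) : ℂ) =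
        ((x₁ n).val.1 - (X₀ n).val.1) + ((X₀ n).val.1 - ((Real.sqrt 2 / 2 : ℝ) : ℂ)) := by ring
    rw [h4]
    have h5 := norm_add_le ((x₁ n).val.1 - (X₀ n).val.1) ((X₀ n).val.1 - ((Real.sqrt 2 / 2 : ℝ) : ℂ))
    rw [hε] at h1
    linarith
  · have h1 : ‖(x₁ - X₀) n‖ ≤ ε := (lp.norm_apply_le_norm (by norm_num) _ n).trans hxd.le
    have h2 := (norm_snd_le_en _).trans (en_le_norm ((x₁ - X₀) n))
    have h3 : ((x₁ - X₀) n).val.2 = (x₁ n).val.2 - (X₀ n).val.2 := rfl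
    rw [h3] at h2
    have h4 : (x₁ n).val.2 - ((Real.sqrt 2 / 2 : ℝ) : ℂ) =
        ((x₁ n).val.2 - (X₀ n).val.2) + ((X₀ n).val.2 - ((Real.sqrt 2 / 2 : ℝ) : ℂ)) := by ring
    rw [h4]
    have h5 := norm_add_le ((x₁ n).val.2 - (X₀ n).val.2) ((X₀ n).val.2 - ((Real.sqrt 2 / 2 : ℝ) : ℂ))
    rw [hε] at h1
    linarith

end Pool.Agent.T2H75.NU
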