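import Pool.Agent.T2H75.NU.C

/-!
# The block norms
-/

namespace Pool.Agent.T2H75.NU

/-- The coefficient of the ripple. -/
noncomputable def kap : ℝ := 1 / 2080

/-- The square of the block norm. -/
noncomputable def Nsq (δ : ℝ) (x : ℂ × ℂ) : ℝ := nsq x + kap * gr δ x

/-- The derivative of `Nsq`. -/
noncomputable def dN (δ : ℝ) (x h : ℂ × ℂ) : ℝ := 2 * ip x h + kap * dgr δ x h

lemma kap_pos : 0 < kap := by norm_num [kap]

lemma Nsq_taylor {δ : ℝ} (h0 : 0 < δ) (h1 : δ ≤ 1) (x h : ℂ × ℂ) :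
    3 / 4 * nsq h ≤ Nsq δ (x + h) - Nsq δ x - dN δ x h ∧
      Nsq δ (x + h) - Nsq δ x - dN δ x h ≤ 5 / 4 * nsq h := by
  have hc := c_stmt δ h0 h1 x h
  have hn := nsq_add x h
  unfold Nsq dN kap
  rw [abs_le] at hc
  constructor <;> nlinarith

lemma Nsq_bounds {δ : ℝ} (h0 : 0 < δ) (h1 : δ ≤ 1) (x : ℂ × ℂ) :
    999 / 1000 * nsq x ≤ Nsq δ x ∧ Nsq δ x ≤ 1001 / 1000 * nsq x := by
  have h := abs_gr_le h0 h1 x
  have hx := nsq_nonneg x
  unfold Nsq kap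
  rw [abs_le] at h
  constructor <;> nlinarith

lemma Nsq_nonneg {δ : ℝ} (h0 : 0 < δ) (h1 : δ ≤ 1) (x : ℂ × ℂ) : 0 ≤ Nsq δ x := by
  have := (Nsq_bounds h0 h1 x).1
  have := nsq_nonneg x
  linarith

lemma nsq_smul (c : ℂ) (x : ℂ × ℂ) : nsq (c • x) = ‖c‖ ^ 2 * nsq x := by
  unfold nsq
  simp only [Prod.smul_fst, Prod.smul_snd, norm_smul]
  ring

lemma qf_smul (c : ℂ) (x : ℂ × ℂ) : qf (c • x) = ‖c‖ ^ 2 * qf x := by
  unfold qf
  simp only [Prod.smul_fst, Prod.smul_snd, norm_smul]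
  ring

lemma gr_smul (δ : ℝ) (c : ℂ) (x : ℂ × ℂ) : gr δ (c • x) = ‖c‖ ^ 2 * gr δ x := by
  unfold gr
  rw [nsq_smul, qf_smul]
  by_cases hc : c = 0
  · simp [hc]
  have : ‖c‖ ^ 2 ≠ 0 := by positivity
  rw [mul_div_mul_left _ _ this]
  ring

lemma Nsq_smul (δ : ℝ) (c : ℂ) (x : ℂ × ℂ) : Nsq δ (c • x) = ‖c‖ ^ 2 * Nsq δ x := by
  unfold Nsq
  rw [nsq_smul, gr_smul]
  ring

lemma ip_add (x h k : ℂ × ℂ) : ip x (h + k) = ip x h + ip x k := by
  simp only [ip_eq, Prod.fst_add, Prod.snd_add, Complex.add_re, Complex.add_im]; ring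

lemma bq_add (x h k : ℂ × ℂ) : bq x (h + k) = bq x h + bq x k := by
  simp only [bq_eq, Prod.fst_add, Prod.snd_add, Complex.add_re, Complex.add_im]; ring

lemma ip_rsmul (x h : ℂ × ℂ) (t : ℝ) : ip x (t • h) = t * ip x h := by
  simp only [ip_eq, Prod.smul_fst, Prod.smul_snd, Complex.real_smul, Complex.mul_re,
    Complex.ofReal_re, Complex.ofReal_im, Complex.mul_im]; ring

lemma bq_rsmul (x h : ℂ × ℂ) (t : ℝ) : bq x (t • h) = t * bq x h := by
  simp only [bq_eq, Prod.smul_fst, Prod.smul_snd, Complex.real_smul, Complex.mul_re,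
    Complex.ofReal_re, Complex.ofReal_im, Complex.mul_im]; ring

lemma dgr_add (δ : ℝ) (x h k : ℂ × ℂ) : dgr δ x (h + k) = dgr δ x h + dgr δ x k := by
  unfold dgr; rw [ip_add, bq_add]; ring

lemma dgr_rsmul (δ : ℝ) (x h : ℂ × ℂ) (t : ℝ) : dgr δ x (t • h) = t * dgr δ x h := by
  unfold dgr; rw [ip_rsmul, bq_rsmul]; ring

lemma dN_add (δ : ℝ) (x h k : ℂ × ℂ) : dN δ x (h + k) = dN δ x h + dN δ x k := by
  unfold dN; rw [ip_add, dgr_add]; ring

lemma dN_rsmul (δ : ℝ) (x h : ℂ × ℂ) (t : ℝ) : dN δ x (t • h) = t * dN δ x h := by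
  unfold dN; rw [ip_rsmul, dgr_rsmul]; ring

/-- Triangle inequality. -/
lemma N_triangle {δ : ℝ} (h0 : 0 < δ) (h1 : δ ≤ 1) (x y : ℂ × ℂ) :
    Real.sqrt (Nsq δ (x + y)) ≤ Real.sqrt (Nsq δ x) + Real.sqrt (Nsq δ y) := by
  have nx := Nsq_nonneg h0 h1 x
  have ny := Nsq_nonneg h0 h1 y
  set a := Real.sqrt (Nsq δ x) with ha
  set b := Real.sqrt (Nsq δ y) with hb
  have ha0 : 0 ≤ a := Real.sqrt_nonneg _
  have hb0 : 0 ≤ b := Real.sqrt_nonneg _
  have ha2 : a ^ 2 = Nsq δ x := Real.sq_sqrt nx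
  have hb2 : b ^ 2 = Nsq δ y := Real.sq_sqrt ny
  -- zero cases
  have zero_of : ∀ z : ℂ × ℂ, Nsq δ z = 0 → z = 0 := by
    intro z hz
    have h := (Nsq_bounds h0 h1 z).1
    have hz2 := nsq_nonneg z
    have hz3 : nsq z = 0 := by linarith
    unfold nsq at hz3
    have h4 : ‖z.1‖ ^ 2 = 0 := by nlinarith [sq_nonneg ‖z.1‖, sq_nonneg ‖z.2‖]
    have h5 : ‖z.2‖ ^ 2 = 0 := by nlinarith [sq_nonneg ‖z.1‖, sq_nonneg ‖z.2‖]
    ext1
    · simpa using h4
    · simpa using h5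
  rcases ha0.eq_or_lt with h | hap
  · have hx : x = 0 := zero_of x (by rw [← ha2, ← h]; norm_num)
    rw [hx, zero_add]; linarith
  rcases hb0.eq_or_lt with h | hbp
  · have hy : y = 0 := zero_of y (by rw [← hb2, ← h]; norm_num)
    rw [hy, add_zero]; linarith
  have hab : 0 < a + b := by linarith
  set z : ℂ × ℂ := ((a + b)⁻¹ : ℝ) • (x + y) with hz
  have hsm : ∀ (t : ℝ) (w : ℂ × ℂ), Nsq δ (t • w) = t ^ 2 * Nsq δ w := by
    intro t w
    have h2 : t • w = ((t : ℂ)) • w := by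
      ext1 <;> simp
    rw [h2, Nsq_smul, Complex.norm_real, Real.norm_eq_abs, sq_abs]
  have hu : Nsq δ ((a⁻¹ : ℝ) • x) = 1 := by
    rw [hsm, ← ha2]; field_simp
  have hv : Nsq δ ((b⁻¹ : ℝ) • y) = 1 := by
    rw [hsm, ← hb2]; field_simp
  have t1 := (Nsq_taylor h0 h1 z ((a⁻¹ : ℝ) • x - z)).1
  have t2 := (Nsq_taylor h0 h1 z ((b⁻¹ : ℝ) • y - z)).1
  rw [add_sub_cancel, hu] at t1
  rw [add_sub_cancel, hv] at t2
  have n1 := nsq_nonneg ((a⁻¹ : ℝ) • x - z)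
  have n2 := nsq_nonneg ((b⁻¹ : ℝ) • y - z)
  have hlin : a * dN δ z ((a⁻¹ : ℝ) • x - z) + b * dN δ z ((b⁻¹ : ℝ) • y - z) = 0 := by
    rw [← dN_rsmul, ← dN_rsmul, ← dN_add]
    have : a • ((a⁻¹ : ℝ) • x - z) + b • ((b⁻¹ : ℝ) • y - z) = (0 : ℝ) • x := by
      rw [smul_sub, smul_sub, smul_inv_smul₀ hap.ne', smul_inv_smul₀ hbp.ne', zero_smul]
      have : a • z + b • z = x + y := by
        rw [← add_smul, hz, smul_smul, mul_inv_cancel₀ hab.ne', one_smul]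
      calc x - a • z + (y - b • z) = x + y - (a • z + b • z) := by abel
        _ = 0 := by rw [this, sub_self]
    rw [this, dN_rsmul, zero_mul]
  have hz1 : Nsq δ z ≤ 1 := by
    have := mul_le_mul_of_nonneg_left t1 hap.le
    have := mul_le_mul_of_nonneg_left t2 hbp.le
    have h5 : (a + b) * Nsq δ z ≤ (a + b) * 1 := by nlinarith
    exact le_of_mul_le_mul_left h5 hab
  have hz2 : Nsq δ (x + y) = (a + b) ^ 2 * Nsq δ z := by
    rw [← hsm, hz, smul_smul, mul_inv_cancel₀ hab.ne', one_smul]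
  rw [hz2]
  calc Real.sqrt ((a + b) ^ 2 * Nsq δ z) ≤ Real.sqrt ((a + b) ^ 2 * 1) := by
        apply Real.sqrt_le_sqrt; gcongr
    _ = a + b := by rw [mul_one, Real.sqrt_sq hab.le]

lemma N_smul {δ : ℝ} (c : ℂ) (x : ℂ × ℂ) :
    Real.sqrt (Nsq δ (c • x)) = ‖c‖ * Real.sqrt (Nsq δ x) := by
  rw [Nsq_smul, Real.sqrt_mul (by positivity), Real.sqrt_sq (norm_nonneg c)]

lemma N_eq_zero_iff {δ : ℝ} (h0 : 0 < δ) (h1 : δ ≤ 1) (x : ℂ × ℂ) :
    Real.sqrt (Nsq δ x) = 0 ↔ x = 0 := by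
  constructor
  · intro h
    have h1' : Nsq δ x = 0 := by
      rwa [Real.sqrt_eq_zero (Nsq_nonneg h0 h1 _)] at h
    have h := (Nsq_bounds h0 h1 x).1
    have hz2 := nsq_nonneg x
    have hz3 : nsq x = 0 := by linarith
    unfold nsq at hz3
    have h4 : ‖x.1‖ ^ 2 = 0 := by nlinarith [sq_nonneg ‖x.1‖, sq_nonneg ‖x.2‖]
    have h5 : ‖x.2‖ ^ 2 = 0 := by nlinarith [sq_nonneg ‖x.1‖, sq_nonneg ‖x.2‖]
    ext1
    · simpa using h4
    · simpa using h5
  · rintro rfl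
    have : Nsq δ (0 : ℂ × ℂ) = 0 := by
      have := Nsq_smul δ 0 (0 : ℂ × ℂ)
      simpa using this
    rw [this, Real.sqrt_zero]

/-- The scales. -/
noncomputable def del (n : ℕ) : ℝ := 1 / (7 * ((n : ℝ) + 1))

lemma del_pos (n : ℕ) : 0 < del n := by unfold del; positivity

lemma del_le (n : ℕ) : del n ≤ 1 / 7 := by
  unfold del
  have : (0:ℝ) ≤ n := Nat.cast_nonneg n
  rw [div_le_div_iff₀ (by positivity) (by norm_num)]
  nlinarith

lemma del_le_one (n : ℕ) : del n ≤ 1 := (del_le n).trans (by norm_num)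

/-- The `n`-th block: `ℂ²` with the norm `√(Nsq δ_n)`. -/
def Blk (_n : ℕ) : Type := ℂ × ℂ

namespace Blk
variable {n : ℕ}

/-- coordinates of an element of the block -/
def val (x : Blk n) : ℂ × ℂ := x

/-- the element of the block with given coordinates -/
def mk (n : ℕ) (x : ℂ × ℂ) : Blk n := x

instance : AddCommGroup (Blk n) := inferInstanceAs (AddCommGroup (ℂ × ℂ))
instance : Module ℂ (Blk n) := inferInstanceAs (Module ℂ (ℂ × ℂ))
noncomputable instance : Norm (Blk n) := ⟨fun x => Real.sqrt (Nsq (del n) x.val)⟩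

@[simp] lemma val_mk (x : ℂ × ℂ) : (mk n x).val = x := rfl
@[simp] lemma mk_val (x : Blk n) : mk n x.val = x := rfl
lemma val_add (x y : Blk n) : (x + y).val = x.val + y.val := rfl
lemma val_sub (x y : Blk n) : (x - y).val = x.val - y.val := rfl
lemma val_neg (x : Blk n) : (-x).val = -x.val := rfl
lemma val_smul (c : ℂ) (x : Blk n) : (c • x).val = c • x.val := rfl
lemma mk_add (x y : ℂ × ℂ) : mk n (x + y) = mk n x + mk n y := rfl
lemma mk_sub (x y : ℂ × ℂ) : mk n (x - y) = mk n x - mk n y := rfl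
lemma mk_neg (x : ℂ × ℂ) : mk n (-x) = -mk n x := rfl
lemma mk_smul (c : ℂ) (x : ℂ × ℂ) : mk n (c • x) = c • mk n x := rfl

lemma core (n : ℕ) : NormedSpace.Core ℂ (Blk n) where
  norm_nonneg x := Real.sqrt_nonneg _
  norm_smul c x := N_smul c x.val
  norm_triangle x y := N_triangle (del_pos n) (del_le_one n) x.val y.val
  norm_eq_zero_iff x := N_eq_zero_iff (del_pos n) (del_le_one n) x.val

noncomputable instance : NormedAddCommGroup (Blk n) := NormedAddCommGroup.ofCore (core n)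
noncomputable instance : NormedSpace ℂ (Blk n) := NormedSpace.ofCore (core n)

instance : FiniteDimensional ℂ (Blk n) := inferInstanceAs (FiniteDimensional ℂ (ℂ × ℂ))
instance : CompleteSpace (Blk n) := FiniteDimensional.complete ℂ (Blk n)

lemma norm_def (x : Blk n) : ‖x‖ = Real.sqrt (Nsq (del n) x.val) := rfl

lemma norm_sq (x : Blk n) : ‖x‖ ^ 2 = Nsq (del n) x.val :=
  Real.sq_sqrt (Nsq_nonneg (del_pos n) (del_le_one n) _)

end Blk

/-- The space: the `ℓ₂`-sum of the blocks. -/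
abbrev XX : Type := lp Blk 2

end Pool.Agent.T2H75.NU
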