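import Pool.Agent.T2H75.NU.Defs

/-!
# Package C: the ripple is uniformly `C^{1,1}`
-/

namespace Pool.Agent.T2H75.NU

open Complex

lemma nsq_nonneg (x : ℂ × ℂ) : 0 ≤ nsq x := by unfold nsq; positivity

lemma nsq_eq (x : ℂ × ℂ) :
    nsq x = x.1.re ^ 2 + x.1.im ^ 2 + (x.2.re ^ 2 + x.2.im ^ 2) := by
  unfold nsq
  rw [← Complex.normSq_eq_norm_sq, ← Complex.normSq_eq_norm_sq, Complex.normSq_apply,
    Complex.normSq_apply]
  ring

lemma qf_eq (x : ℂ × ℂ) :
    qf x = x.1.re ^ 2 + x.1.im ^ 2 - (x.2.re ^ 2 + x.2.im ^ 2) := by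
  unfold qf
  rw [← Complex.normSq_eq_norm_sq, ← Complex.normSq_eq_norm_sq, Complex.normSq_apply,
    Complex.normSq_apply]
  ring

lemma ip_eq (x y : ℂ × ℂ) :
    ip x y = x.1.re * y.1.re + x.1.im * y.1.im + (x.2.re * y.2.re + x.2.im * y.2.im) := by
  simp [ip]

lemma bq_eq (x y : ℂ × ℂ) :
    bq x y = x.1.re * y.1.re + x.1.im * y.1.im - (x.2.re * y.2.re + x.2.im * y.2.im) := by
  simp [bq]

lemma nsq_add (x h : ℂ × ℂ) : nsq (x + h) = nsq x + 2 * ip x h + nsq h := by
  rw [nsq_eq, nsq_eq, nsq_eq, ip_eq]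
  simp only [Prod.fst_add, Prod.snd_add, Complex.add_re, Complex.add_im]
  ring

lemma qf_add (x h : ℂ × ℂ) : qf (x + h) = qf x + 2 * bq x h + qf h := by
  rw [qf_eq, qf_eq, qf_eq, bq_eq]
  simp only [Prod.fst_add, Prod.snd_add, Complex.add_re, Complex.add_im]
  ring

lemma abs_qf_le (x : ℂ × ℂ) : |qf x| ≤ nsq x := by
  unfold qf nsq
  rw [abs_le]
  constructor <;> nlinarith [sq_nonneg ‖x.1‖, sq_nonneg ‖x.2‖]

lemma ip_sq_le (x y : ℂ × ℂ) : ip x y ^ 2 ≤ nsq x * nsq y := by
  rw [nsq_eq, nsq_eq, ip_eq]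
  nlinarith [sq_nonneg (x.1.re * y.1.im - x.1.im * y.1.re),
    sq_nonneg (x.1.re * y.2.re - x.2.re * y.1.re), sq_nonneg (x.1.re * y.2.im - x.2.im * y.1.re),
    sq_nonneg (x.1.im * y.2.re - x.2.re * y.1.im), sq_nonneg (x.1.im * y.2.im - x.2.im * y.1.im),
    sq_nonneg (x.2.re * y.2.im - x.2.im * y.2.re)]

lemma bq_sq_le (x y : ℂ × ℂ) : bq x y ^ 2 ≤ nsq x * nsq y := by
  have h := ip_sq_le x (y.1, -y.2)
  have h1 : ip x (y.1, -y.2) = bq x y := by rw [ip_eq, bq_eq]; simp; ring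
  have h2 : nsq (y.1, -y.2) = nsq y := by rw [nsq_eq, nsq_eq]; simp
  rwa [h1, h2] at h

/-- Euclidean norm on `ℂ²`. -/
noncomputable def en (x : ℂ × ℂ) : ℝ := Real.sqrt (nsq x)

lemma en_nonneg (x : ℂ × ℂ) : 0 ≤ en x := Real.sqrt_nonneg _

lemma en_sq (x : ℂ × ℂ) : en x ^ 2 = nsq x := Real.sq_sqrt (nsq_nonneg x)

lemma abs_ip_le (x y : ℂ × ℂ) : |ip x y| ≤ en x * en y := by
  apply abs_le_of_sq_le_sq _ (mul_nonneg (en_nonneg x) (en_nonneg y))
  rw [mul_pow, en_sq, en_sq]; exact ip_sq_le x y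

lemma abs_bq_le (x y : ℂ × ℂ) : |bq x y| ≤ en x * en y := by
  apply abs_le_of_sq_le_sq _ (mul_nonneg (en_nonneg x) (en_nonneg y))
  rw [mul_pow, en_sq, en_sq]; exact bq_sq_le x y

lemma abs_s_le (x : ℂ × ℂ) : |qf x / nsq x| ≤ 1 := by
  rw [abs_div, abs_of_nonneg (nsq_nonneg x)]
  exact div_le_one_of_le₀ (abs_qf_le x) (nsq_nonneg x)

lemma abs_phi_le (r : ℝ) : |phi r| ≤ 2 := by
  unfold phi
  rw [abs_le]
  constructor <;> nlinarith [Real.cos_le_one r, Real.neg_one_le_cos r, Real.sin_le_one (2 * r),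
    Real.neg_one_le_sin (2 * r)]

lemma abs_dphi_le (r : ℝ) : |dphi r| ≤ 3 := by
  unfold dphi
  rw [abs_le]
  constructor <;> nlinarith [Real.cos_le_one (2 * r), Real.neg_one_le_cos (2 * r),
    Real.sin_le_one r, Real.neg_one_le_sin r]

lemma hasDerivAt_phi (r : ℝ) : HasDerivAt phi (dphi r) r := by
  have h1 := Real.hasDerivAt_cos r
  have h2 : HasDerivAt (fun x : ℝ => Real.sin (2 * x)) (Real.cos (2 * r) * 2) r := by
    simpa using ((hasDerivAt_id r).const_mul (2:ℝ)).sin
  have h3 := h1.fun_sub h2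
  have : dphi r = -Real.sin r - Real.cos (2 * r) * 2 := by unfold dphi; ring
  rw [this]
  exact h3

lemma abs_dphi_sub_le (a b : ℝ) : |dphi a - dphi b| ≤ 5 * |a - b| := by
  have h1 := Real.abs_sin_sub_sin_le a b
  have h2 := Real.abs_cos_sub_cos_le (2 * a) (2 * b)
  have h3 : |2 * a - 2 * b| = 2 * |a - b| := by
    rw [← mul_sub, abs_mul, abs_of_pos (by norm_num : (0:ℝ) < 2)]
  rw [h3] at h2
  unfold dphi
  rw [abs_le] at h1 h2 ⊢
  constructor <;> nlinarith

/-- second order Taylor for `phi`. -/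
lemma phi_taylor (r r' : ℝ) : |phi r' - phi r - dphi r * (r' - r)| ≤ 5 * (r' - r) ^ 2 := by
  have key : ‖(phi r' - dphi r * r') - (phi r - dphi r * r)‖ ≤ (5 * |r' - r|) * ‖r' - r‖ := by
    refine (convex_uIcc r r').norm_image_sub_le_of_norm_hasDerivWithin_le
      (f := fun y => phi y - dphi r * y) (f' := fun y => dphi y - dphi r) ?_ ?_
      Set.left_mem_uIcc Set.right_mem_uIcc
    · intro y _
      have h := (hasDerivAt_phi y).fun_sub ((hasDerivAt_id y).const_mul (dphi r))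
      simpa using h.hasDerivWithinAt
    · intro y hy
      have h1 := abs_dphi_sub_le y r
      have h2 : |y - r| ≤ |r' - r| := Set.abs_sub_left_of_mem_uIcc hy
      rw [Real.norm_eq_abs]
      linarith
  have e1 : (phi r' - dphi r * r') - (phi r - dphi r * r) = phi r' - phi r - dphi r * (r' - r) := by
    ring
  rw [e1, Real.norm_eq_abs, Real.norm_eq_abs] at key
  calc _ ≤ _ := key
    _ = 5 * |r' - r| ^ 2 := by ring
    _ = 5 * (r' - r) ^ 2 := by rw [sq_abs]

lemma abs_gr_le {δ : ℝ} (h0 : 0 < δ) (h1 : δ ≤ 1) (x : ℂ × ℂ) : |gr δ x| ≤ 2 * nsq x := by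
  unfold gr
  rw [abs_mul, abs_mul, abs_of_nonneg (nsq_nonneg x), abs_of_nonneg (sq_nonneg δ)]
  have h2 := abs_phi_le (qf x / nsq x / δ)
  have h3 : δ ^ 2 ≤ 1 := by nlinarith
  have h4 := nsq_nonneg x
  calc δ ^ 2 * nsq x * |phi (qf x / nsq x / δ)| ≤ 1 * nsq x * 2 := by gcongr
    _ = 2 * nsq x := by ring

lemma abs_dgr_le {δ : ℝ} (h0 : 0 < δ) (h1 : δ ≤ 1) (x h : ℂ × ℂ) :
    |dgr δ x h| ≤ 16 * (en x * en h) := by
  unfold dgr
  have hp := abs_phi_le (qf x / nsq x / δ)
  have hd := abs_dphi_le (qf x / nsq x / δ)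
  have hs := abs_s_le x
  have hi := abs_ip_le x h
  have hb := abs_bq_le x h
  have he : 0 ≤ en x * en h := mul_nonneg (en_nonneg x) (en_nonneg h)
  have h2 : δ ^ 2 ≤ 1 := by nlinarith
  have a1 : |2 * ip x h * δ ^ 2 * phi (qf x / nsq x / δ)| ≤ 4 * (en x * en h) := by
    rw [abs_mul, abs_mul, abs_mul, abs_of_nonneg (sq_nonneg δ), abs_of_pos (by norm_num : (0:ℝ) < 2)]
    calc 2 * |ip x h| * δ ^ 2 * |phi (qf x / nsq x / δ)| ≤ 2 * (en x * en h) * 1 * 2 := by
          gcongr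
      _ = 4 * (en x * en h) := by ring
  have a2 : |2 * bq x h - 2 * (qf x / nsq x) * ip x h| ≤ 4 * (en x * en h) := by
    have : |2 * (qf x / nsq x) * ip x h| ≤ 2 * (en x * en h) := by
      rw [abs_mul, abs_mul, abs_of_pos (by norm_num : (0:ℝ) < 2)]
      calc 2 * |qf x / nsq x| * |ip x h| ≤ 2 * 1 * (en x * en h) := by gcongr
        _ = 2 * (en x * en h) := by ring
    have h4 : |2 * bq x h| ≤ 2 * (en x * en h) := by
      rw [abs_mul, abs_of_pos (by norm_num : (0:ℝ) < 2)]; linarith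
    calc _ ≤ |2 * bq x h| + |2 * (qf x / nsq x) * ip x h| := abs_sub _ _
      _ ≤ _ := by linarith
  have a3 : |δ * dphi (qf x / nsq x / δ) * (2 * bq x h - 2 * (qf x / nsq x) * ip x h)|
      ≤ 12 * (en x * en h) := by
    rw [abs_mul, abs_mul, abs_of_pos h0]
    calc δ * |dphi (qf x / nsq x / δ)| * |2 * bq x h - 2 * (qf x / nsq x) * ip x h|
        ≤ 1 * 3 * (4 * (en x * en h)) := by gcongr
      _ = 12 * (en x * en h) := by ring
  exact (abs_add_le _ _).trans (by linarith)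

/-- Package C. -/
theorem c_stmt : CStmt := by
  intro δ h0 h1 x h
  have hn := nsq_nonneg h
  have hx := nsq_nonneg x
  by_cases hc : en x < 2 * en h
  · -- crude case
    have g1 := abs_gr_le h0 h1 (x + h)
    have g2 := abs_gr_le h0 h1 x
    have g3 := abs_dgr_le h0 h1 x h
    have hex := en_nonneg x
    have heh := en_nonneg h
    have e1 := en_sq x
    have e2 := en_sq h
    have hi := abs_ip_le x h
    rw [nsq_add] at g1
    rw [abs_le] at g1 g2 g3 hi ⊢
    constructor <;> nlinarith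
  · -- main case
    push Not at hc
    have hex := en_nonneg x
    have heh := en_nonneg h
    by_cases hx0 : nsq x = 0
    · have : en x = 0 := by unfold en; rw [hx0, Real.sqrt_zero]
      have hh : en h = 0 := by linarith
      have hh2 : nsq h = 0 := by rw [← en_sq, hh]; norm_num
      have g1 := abs_gr_le h0 h1 (x + h)
      have g2 := abs_gr_le h0 h1 x
      have g3 := abs_dgr_le h0 h1 x h
      have hi := abs_ip_le x h
      rw [nsq_add, hx0, hh2] at g1
      rw [hx0] at g2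
      rw [hh] at g3 hi
      rw [hh2]
      rw [abs_le] at g1 g2 g3 hi ⊢
      constructor <;> nlinarith
    have hxp : 0 < nsq x := lt_of_le_of_ne hx (Ne.symm hx0)
    have e1 := en_sq x
    have e2 := en_sq h
    have hi := abs_ip_le x h
    have hb := abs_bq_le x h
    have hn' : nsq x / 4 ≤ nsq (x + h) := by
      rw [nsq_add]
      rw [abs_le] at hi
      nlinarith
    have hn'p : 0 < nsq (x + h) := by linarith
    set n := nsq x with hn_def
    set n' := nsq (x + h) with hn'_def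
    set s := qf x / n with hs_def
    set s' := qf (x + h) / n' with hs'_def
    have hqx : qf x = s * n := by rw [hs_def]; field_simp
    have hqx' : qf (x + h) = s' * n' := by rw [hs'_def]; field_simp
    have hdiff : n' * (s' - s) = 2 * bq x h - 2 * s * ip x h + (qf h - s * nsq h) := by
      have h3 := qf_add x h
      have h4 := nsq_add x h
      rw [hqx', hqx] at h3
      rw [← hn'_def, ← hn_def] at h4
      calc n' * (s' - s) = s' * n' - s * n' := by ring
        _ = s * n + 2 * bq x h + qf h - s * (n + 2 * ip x h + nsq h) := by rw [h3, ← h4]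
        _ = _ := by ring
    have hsa : |s| ≤ 1 := abs_s_le x
    have hqh := abs_qf_le h
    set r := s / δ with hr_def
    set r' := s' / δ with hr'_def
    have hE := phi_taylor r r'
    set E := phi r' - phi r - dphi r * (r' - r) with hE_def
    have hrr : r' - r = (s' - s) / δ := by rw [hr_def, hr'_def]; ring
    have hid : gr δ (x + h) - gr δ x - dgr δ x h =
        δ ^ 2 * phi r * nsq h + δ * dphi r * (qf h - s * nsq h) + δ ^ 2 * n' * E := by
      have hphi' : phi r' = phi r + dphi r * ((s' - s) / δ) + E := by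
        rw [hE_def, hrr]; ring
      unfold gr dgr
      rw [← hn_def, ← hn'_def, ← hs_def, ← hs'_def, ← hr_def, ← hr'_def, hphi']
      have h5 : δ ^ 2 * n' * (dphi r * ((s' - s) / δ)) = δ * dphi r * (n' * (s' - s)) := by
        field_simp
      have h4 := nsq_add x h
      rw [← hn'_def, ← hn_def] at h4
      calc δ ^ 2 * n' * (phi r + dphi r * ((s' - s) / δ) + E) - δ ^ 2 * n * phi r -
            (2 * ip x h * δ ^ 2 * phi r + δ * dphi r * (2 * bq x h - 2 * s * ip x h))
          = δ ^ 2 * n' * phi r + δ ^ 2 * n' * (dphi r * ((s' - s) / δ)) + δ ^ 2 * n' * E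
            - δ ^ 2 * n * phi r -
            (2 * ip x h * δ ^ 2 * phi r + δ * dphi r * (2 * bq x h - 2 * s * ip x h)) := by ring
        _ = _ := by rw [h5, hdiff, h4]; ring
    rw [hid]
    have b1 : |δ ^ 2 * phi r * nsq h| ≤ 2 * nsq h := by
      rw [abs_mul, abs_mul, abs_of_nonneg hn, abs_of_nonneg (sq_nonneg δ)]
      have h2 : δ ^ 2 ≤ 1 := by nlinarith
      have := abs_phi_le r
      calc δ ^ 2 * |phi r| * nsq h ≤ 1 * 2 * nsq h := by gcongr
        _ = 2 * nsq h := by ring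
    have b2 : |δ * dphi r * (qf h - s * nsq h)| ≤ 6 * nsq h := by
      have h3 : |qf h - s * nsq h| ≤ 2 * nsq h := by
        have : |s * nsq h| ≤ nsq h := by
          rw [abs_mul, abs_of_nonneg hn]; nlinarith
        calc _ ≤ |qf h| + |s * nsq h| := abs_sub _ _
          _ ≤ _ := by linarith
      rw [abs_mul, abs_mul, abs_of_pos h0]
      have := abs_dphi_le r
      calc δ * |dphi r| * |qf h - s * nsq h| ≤ 1 * 3 * (2 * nsq h) := by gcongr
        _ = 6 * nsq h := by ring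
    have b3 : |δ ^ 2 * n' * E| ≤ 500 * nsq h := by
      rw [abs_mul, abs_mul, abs_of_pos hn'p, abs_of_nonneg (sq_nonneg δ)]
      have h6 : |n' * (s' - s)| ≤ 5 * (en x * en h) := by
        rw [hdiff]
        have c1 : |2 * s * ip x h| ≤ 2 * (en x * en h) := by
          rw [abs_mul, abs_mul, abs_of_pos (by norm_num : (0:ℝ) < 2)]
          calc 2 * |s| * |ip x h| ≤ 2 * 1 * (en x * en h) := by gcongr
            _ = _ := by ring
        have c2 : |s * nsq h| ≤ nsq h := by
          rw [abs_mul, abs_of_nonneg hn]; nlinarith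
        rw [abs_le] at c1 c2 hb hqh ⊢
        constructor <;> nlinarith
      have h7 : (n' * (s' - s)) ^ 2 ≤ 25 * (n * nsq h) := by
        have : (n' * (s' - s)) ^ 2 = |n' * (s' - s)| ^ 2 := (sq_abs _).symm
        rw [this]
        calc |n' * (s' - s)| ^ 2 ≤ (5 * (en x * en h)) ^ 2 := by gcongr
          _ = 25 * (en x ^ 2 * en h ^ 2) := by ring
          _ = 25 * (n * nsq h) := by rw [e1, e2]
      have h8 : n' * (s' - s) ^ 2 ≤ 100 * nsq h := by
        have h9 : n' * (n' * (s' - s) ^ 2) ≤ n' * (100 * nsq h) := by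
          calc n' * (n' * (s' - s) ^ 2) = (n' * (s' - s)) ^ 2 := by ring
            _ ≤ 25 * (n * nsq h) := h7
            _ ≤ n' * (100 * nsq h) := by nlinarith
        exact le_of_mul_le_mul_left h9 hn'p
      calc δ ^ 2 * n' * |E| ≤ δ ^ 2 * n' * (5 * (r' - r) ^ 2) := by gcongr
        _ = 5 * (n' * (s' - s) ^ 2) := by rw [hrr]; field_simp
        _ ≤ 5 * (100 * nsq h) := by gcongr
        _ = 500 * nsq h := by ring
    calc _ ≤ |δ ^ 2 * phi r * nsq h + δ * dphi r * (qf h - s * nsq h)| + |δ ^ 2 * n' * E| :=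
          abs_add_le _ _
      _ ≤ |δ ^ 2 * phi r * nsq h| + |δ * dphi r * (qf h - s * nsq h)| + |δ ^ 2 * n' * E| := by
          gcongr; exact abs_add_le _ _
      _ ≤ 520 * nsq h := by linarith

end Pool.Agent.T2H75.NU
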