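import Pool.Agent.T2H75.NU.Defs

/-!
# Package D: the ripple has no point of symmetry
-/

namespace Pool.Agent.T2H75.NU

open Real

lemma phi_abs_le (r : ℝ) : |phi r| ≤ 2 := by
  unfold phi
  have h1 := Real.cos_le_one r
  have h2 := Real.neg_one_le_cos r
  have h3 := Real.sin_le_one (2 * r)
  have h4 := Real.neg_one_le_sin (2 * r)
  rw [abs_le]
  constructor <;> linarith

lemma phi_lip (x y : ℝ) : |phi x - phi y| ≤ 3 * |x - y| := by
  unfold phi
  have h1 := Real.abs_cos_sub_cos_le x y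
  have h2 := Real.abs_sin_sub_sin_le (2 * x) (2 * y)
  have h3 : |2 * x - 2 * y| = 2 * |x - y| := by
    rw [← mul_sub, abs_mul, abs_of_pos (by norm_num : (0:ℝ) < 2)]
  rw [h3] at h2
  have h4 : Real.cos x - Real.sin (2 * x) - (Real.cos y - Real.sin (2 * y)) =
      (Real.cos x - Real.cos y) - (Real.sin (2 * x) - Real.sin (2 * y)) := by ring
  rw [h4]
  calc |(Real.cos x - Real.cos y) - (Real.sin (2 * x) - Real.sin (2 * y))|
      ≤ |Real.cos x - Real.cos y| + |Real.sin (2 * x) - Real.sin (2 * y)| := abs_sub _ _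
    _ ≤ 3 * |x - y| := by linarith

/-- the trigonometric lower bound -/
lemma trig_lower (r : ℝ) : ∃ σ : ℝ, 0 < σ ∧ σ ≤ π ∧
    1 / 2 ≤ |phi (r + σ) - phi (r - σ) - 2 * σ * dphi r| := by
  by_contra hcon
  push Not at hcon
  have h1 := hcon π Real.pi_pos le_rfl
  have h2 := hcon (π / 2) (by positivity) (by linarith [Real.pi_pos])
  have e1 : phi (r + π) - phi (r - π) - 2 * π * dphi r =
      2 * π * (Real.sin r + 2 * Real.cos (2 * r)) := by
    unfold phi dphi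
    rw [show 2 * (r + π) = 2 * r + 2 * π by ring, show 2 * (r - π) = 2 * r - 2 * π by ring,
      Real.sin_add_two_pi, Real.sin_sub_two_pi, Real.cos_add_pi, Real.cos_sub_pi]
    ring
  have e2 : phi (r + π / 2) - phi (r - π / 2) - 2 * (π / 2) * dphi r =
      -2 * Real.sin r + π * (Real.sin r + 2 * Real.cos (2 * r)) := by
    unfold phi dphi
    rw [show 2 * (r + π / 2) = 2 * r + π by ring, show 2 * (r - π / 2) = 2 * r - π by ring,
      Real.sin_add_pi, Real.sin_sub_pi, Real.cos_add_pi_div_two, Real.cos_sub_pi_div_two]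
    ring
  rw [e1] at h1
  rw [e2] at h2
  have hc : Real.cos (2 * r) = 1 - 2 * Real.sin r ^ 2 := by
    rw [Real.cos_two_mul, Real.cos_sq']; ring
  rw [hc] at h1 h2
  have hpi := Real.pi_gt_three
  rw [abs_lt] at h1 h2
  obtain ⟨h1a, h1b⟩ := h1
  obtain ⟨h2a, h2b⟩ := h2
  set X := Real.sin r with hX
  have hX1 : X < 3 / 8 := by nlinarith
  have hX2 : -(3 / 8) < X := by nlinarith
  have hX3 : X ^ 2 < 9 / 64 := by nlinarith
  nlinarith

lemma key (δ A B σ n Q s P τ t : ℝ) (hδ : 0 < δ) (hδ1 : δ ≤ 1 / 1000)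
    (hA : |A - Real.sqrt 2 / 2| ≤ 1 / 20) (hB : |B - Real.sqrt 2 / 2| ≤ 1 / 20)
    (hσ : 0 < σ) (hσ1 : σ ≤ 315 / 100) (hn : n = A ^ 2 + B ^ 2) (hQ : Q = A ^ 2 - B ^ 2)
    (hs : s = Q / n) (hP : P = (A + B) - s * (A - B)) (hτ : τ = σ * n / (2 * P))
    (ht : t = δ * τ) :
    0 < t ∧ t ≤ 1 ∧ t ≤ 3 / 2 * δ ∧ 86 / 100 ≤ n ∧
      |δ ^ 2 * ((n + 2 * t * (A - B) + 2 * t ^ 2) *
          phi ((Q + 2 * t * (A + B)) / (n + 2 * t * (A - B) + 2 * t ^ 2) / δ)) -
        δ ^ 2 * ((n - 2 * t * (A - B) + 2 * t ^ 2) *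
          phi ((Q - 2 * t * (A + B)) / (n - 2 * t * (A - B) + 2 * t ^ 2) / δ)) -
        2 * (2 * (t * (A - B)) * δ ^ 2 * phi (s / δ) +
          δ * dphi (s / δ) * (2 * (t * (A + B)) - 2 * s * (t * (A - B)))) -
        δ ^ 2 * n * (phi (s / δ + σ) - phi (s / δ - σ) - 2 * σ * dphi (s / δ))| ≤
      δ ^ 2 * (40 * δ) := by
  have hr2a : (7071 / 10000 : ℝ) ≤ Real.sqrt 2 / 2 := by
    have : (14142 / 10000 : ℝ) ≤ Real.sqrt 2 := by
      apply Real.le_sqrt_of_sq_le; norm_num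
    linarith
  have hr2b : Real.sqrt 2 / 2 ≤ 7072 / 10000 := by
    have : Real.sqrt 2 ≤ 14144 / 10000 := by
      rw [Real.sqrt_le_left (by norm_num)]; norm_num
    linarith
  rw [abs_le] at hA hB
  have hA1 : 657 / 1000 ≤ A := by linarith [hA.1]
  have hA2 : A ≤ 758 / 1000 := by linarith [hA.2]
  have hB1 : 657 / 1000 ≤ B := by linarith [hB.1]
  have hB2 : B ≤ 758 / 1000 := by linarith [hB.2]
  have hAB1 : A - B ≤ 1 / 10 := by linarith [hA.2, hB.1]
  have hAB2 : -(1 / 10) ≤ A - B := by linarith [hA.1, hB.2]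
  have hn1 : 86 / 100 ≤ n := by rw [hn]; nlinarith
  have hn2 : n ≤ 115 / 100 := by rw [hn]; nlinarith
  have hn0 : 0 < n := by linarith
  have hsn : s * n = Q := by rw [hs]; field_simp
  have hQ1 : |Q| ≤ 152 / 1000 := by
    rw [hQ, abs_le]
    constructor <;> nlinarith
  have hs1 : |s| ≤ 18 / 100 := by
    have h1 : |s| * n = |Q| := by rw [← hsn, abs_mul, abs_of_pos hn0]
    have h2 : 0 ≤ |s| := abs_nonneg _
    by_contra hcon
    push Not at hcon
    nlinarith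
  have hsa := abs_le.1 hs1
  have hP1 : 129 / 100 ≤ P := by
    rw [hP]
    have : s * (A - B) ≤ 18 / 1000 := by
      have h3 : |s * (A - B)| ≤ 18 / 100 * (1 / 10) := by
        rw [abs_mul]
        exact mul_le_mul hs1 (abs_le.2 ⟨hAB2, hAB1⟩) (abs_nonneg _) (by norm_num)
      have := (abs_le.1 h3).2
      linarith
    linarith
  have hP0 : 0 < P := by linarith
  have hτP : 2 * τ * P = σ * n := by rw [hτ]; field_simp
  have hτ0 : 0 < τ := by rw [hτ]; positivity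
  have hτ1 : τ ≤ 3 / 2 := by
    by_contra hcon
    push Not at hcon
    have h1 : σ * n ≤ 315 / 100 * (115 / 100) := mul_le_mul hσ1 hn2 hn0.le (by norm_num)
    nlinarith
  have ht0 : 0 < t := by rw [ht]; positivity
  have ht1 : t ≤ 3 / 2 * δ := by rw [ht]; nlinarith
  have ht2 : t ≤ 1 := by linarith
  refine ⟨ht0, ht2, ht1, hn1, ?_⟩
  set r := s / δ with hr
  have hrs : r * δ = s := by rw [hr]; field_simp
  have h2tP : 2 * t * P = δ * σ * n := by rw [ht]; linear_combination δ * hτP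
  -- the two norms
  set np := n + 2 * t * (A - B) + 2 * t ^ 2 with hnp
  set nm := n - 2 * t * (A - B) + 2 * t ^ 2 with hnm
  have htsq : t ^ 2 ≤ 1 / 400 * δ := by nlinarith
  have htAB1 : t * (A - B) ≤ 15 / 100 * δ := by nlinarith
  have htAB2 : -(15 / 100 * δ) ≤ t * (A - B) := by nlinarith
  have hnp1 : |np - n| ≤ 31 / 100 * δ := by
    rw [hnp, abs_le]; constructor <;> nlinarith
  have hnm1 : |nm - n| ≤ 31 / 100 * δ := by
    rw [hnm, abs_le]; constructor <;> nlinarith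
  have hnp0 : 85 / 100 ≤ np := by linarith [(abs_le.1 hnp1).1]
  have hnm0 : 85 / 100 ≤ nm := by linarith [(abs_le.1 hnm1).1]
  -- the arguments
  have hargp : |(Q + 2 * t * (A + B)) / np / δ - (r + σ)| ≤ 3 * δ := by
    have e : (Q + 2 * t * (A + B)) / np / δ - (r + σ) = (σ * (n - np) - 2 * r * t ^ 2) / np := by
      have hnp' : np ≠ 0 := by linarith
      rw [div_div, div_sub' (by positivity), div_eq_div_iff (by positivity) hnp']
      have e0 : Q + 2 * t * (A + B) - np * δ * (r + σ) =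
          δ * (σ * (n - np) - 2 * r * t ^ 2) := by
        have : A + B = P + s * (A - B) := by rw [hP]; ring
        rw [this, ← hsn, ← hrs]
        rw [← hrs] at *
        linear_combination h2tP - r * δ * (hnp)
      rw [e0]; ring
    rw [e, abs_div, abs_of_pos (by linarith : 0 < np), div_le_iff₀ (by linarith)]
    have h1 : |σ * (n - np) - 2 * r * t ^ 2| ≤ σ * |n - np| + 2 * (|r| * t ^ 2) := by
      refine (abs_sub _ _).trans ?_
      rw [abs_mul, abs_of_pos hσ, mul_assoc, abs_mul, abs_of_pos (by norm_num : (0:ℝ) < 2),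
        abs_mul, abs_of_nonneg (sq_nonneg t)]
    have h2 : |r| * t ^ 2 ≤ 18 / 100 * (9 / 4) * δ := by
      have h3 : |r| * δ = |s| := by rw [← hrs, abs_mul, abs_of_pos hδ]
      have h4 : t ^ 2 ≤ (9 / 4 * δ) * δ := by nlinarith
      calc |r| * t ^ 2 ≤ |r| * ((9 / 4 * δ) * δ) :=
            mul_le_mul_of_nonneg_left h4 (abs_nonneg _)
        _ = (|r| * δ) * (9 / 4 * δ) := by ring
        _ = |s| * (9 / 4 * δ) := by rw [h3]
        _ ≤ 18 / 100 * (9 / 4 * δ) := mul_le_mul_of_nonneg_right hs1 (by positivity)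
        _ = 18 / 100 * (9 / 4) * δ := by ring
    have h5 : σ * |n - np| ≤ 315 / 100 * (31 / 100 * δ) := by
      rw [abs_sub_comm]
      exact mul_le_mul hσ1 hnp1 (abs_nonneg _) (by norm_num)
    nlinarith
  have hargm : |(Q - 2 * t * (A + B)) / nm / δ - (r - σ)| ≤ 3 * δ := by
    have e : (Q - 2 * t * (A + B)) / nm / δ - (r - σ) = (-(σ * (n - nm)) - 2 * r * t ^ 2) / nm := by
      have hnm' : nm ≠ 0 := by linarith
      rw [div_div, div_sub' (by positivity), div_eq_div_iff (by positivity) hnm']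
      have e0 : Q - 2 * t * (A + B) - nm * δ * (r - σ) =
          δ * (-(σ * (n - nm)) - 2 * r * t ^ 2) := by
        have : A + B = P + s * (A - B) := by rw [hP]; ring
        rw [this, ← hsn, ← hrs]
        rw [← hrs] at *
        linear_combination -h2tP - r * δ * (hnm)
      rw [e0]; ring
    rw [e, abs_div, abs_of_pos (by linarith : 0 < nm), div_le_iff₀ (by linarith)]
    have h1 : |-(σ * (n - nm)) - 2 * r * t ^ 2| ≤ σ * |n - nm| + 2 * (|r| * t ^ 2) := by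
      refine (abs_sub _ _).trans ?_
      rw [abs_neg, abs_mul, abs_of_pos hσ, mul_assoc, abs_mul,
        abs_of_pos (by norm_num : (0:ℝ) < 2), abs_mul, abs_of_nonneg (sq_nonneg t)]
    have h2 : |r| * t ^ 2 ≤ 18 / 100 * (9 / 4) * δ := by
      have h3 : |r| * δ = |s| := by rw [← hrs, abs_mul, abs_of_pos hδ]
      have h4 : t ^ 2 ≤ (9 / 4 * δ) * δ := by nlinarith
      calc |r| * t ^ 2 ≤ |r| * ((9 / 4 * δ) * δ) :=
            mul_le_mul_of_nonneg_left h4 (abs_nonneg _)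
        _ = (|r| * δ) * (9 / 4 * δ) := by ring
        _ = |s| * (9 / 4 * δ) := by rw [h3]
        _ ≤ 18 / 100 * (9 / 4 * δ) := mul_le_mul_of_nonneg_right hs1 (by positivity)
        _ = 18 / 100 * (9 / 4) * δ := by ring
    have h5 : σ * |n - nm| ≤ 315 / 100 * (31 / 100 * δ) := by
      rw [abs_sub_comm]
      exact mul_le_mul hσ1 hnm1 (abs_nonneg _) (by norm_num)
    nlinarith
  -- abbreviations for the values of phi
  set xp := (Q + 2 * t * (A + B)) / np / δ with hxp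
  set xm := (Q - 2 * t * (A + B)) / nm / δ with hxm
  have e3 : 2 * (t * (A + B)) - 2 * s * (t * (A - B)) = δ * σ * n := by
    rw [← h2tP, hP]; ring
  rw [e3]
  have e4 : δ ^ 2 * (np * phi xp) - δ ^ 2 * (nm * phi xm) -
        2 * (2 * (t * (A - B)) * δ ^ 2 * phi r + δ * dphi r * (δ * σ * n)) -
        δ ^ 2 * n * (phi (r + σ) - phi (r - σ) - 2 * σ * dphi r) =
      δ ^ 2 * (((np - n) * phi xp + n * (phi xp - phi (r + σ))) -
        ((nm - n) * phi xm + n * (phi xm - phi (r - σ))) - 4 * (t * (A - B)) * phi r) := by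
    ring
  rw [e4, abs_mul, abs_of_nonneg (sq_nonneg δ)]
  apply mul_le_mul_of_nonneg_left _ (sq_nonneg δ)
  have b1 : |(np - n) * phi xp| ≤ 31 / 100 * δ * 2 := by
    rw [abs_mul]
    exact mul_le_mul hnp1 (phi_abs_le _) (abs_nonneg _) (by positivity)
  have b2 : |(nm - n) * phi xm| ≤ 31 / 100 * δ * 2 := by
    rw [abs_mul]
    exact mul_le_mul hnm1 (phi_abs_le _) (abs_nonneg _) (by positivity)
  have b3 : |n * (phi xp - phi (r + σ))| ≤ 115 / 100 * (9 * δ) := by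
    rw [abs_mul, abs_of_pos hn0]
    refine mul_le_mul hn2 ?_ (abs_nonneg _) (by norm_num)
    refine (phi_lip _ _).trans ?_
    linarith
  have b4 : |n * (phi xm - phi (r - σ))| ≤ 115 / 100 * (9 * δ) := by
    rw [abs_mul, abs_of_pos hn0]
    refine mul_le_mul hn2 ?_ (abs_nonneg _) (by norm_num)
    refine (phi_lip _ _).trans ?_
    linarith
  have b5 : |4 * (t * (A - B)) * phi r| ≤ 4 * (15 / 100 * δ) * 2 := by
    rw [abs_mul, abs_mul, abs_of_pos (by norm_num : (0:ℝ) < 4)]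
    refine mul_le_mul ?_ (phi_abs_le _) (abs_nonneg _) (by positivity)
    exact mul_le_mul_of_nonneg_left (abs_le.2 ⟨htAB2, htAB1⟩) (by norm_num)
  rw [abs_le] at b1 b2 b3 b4 b5 ⊢
  constructor <;> linarith [b1.1, b1.2, b2.1, b2.2, b3.1, b3.2, b4.1, b4.2, b5.1, b5.2]

lemma nsq_real (a b : ℝ) : nsq ((a : ℂ), (b : ℂ)) = a ^ 2 + b ^ 2 := by
  simp [nsq, Complex.norm_real]

lemma qf_real (a b : ℝ) : qf ((a : ℂ), (b : ℂ)) = a ^ 2 - b ^ 2 := by
  simp [qf, Complex.norm_real]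

/-- **Package D**: the ripple has no point of symmetry. -/
theorem d_stmt : DStmt := by
  refine ⟨1 / 20, 1 / 20, 1 / 1000, by norm_num, by norm_num, by norm_num, ?_⟩
  intro δ hδ hδ1 A B hA hB
  obtain ⟨σ, hσ, hσ1, hF⟩ := trig_lower ((A ^ 2 - B ^ 2) / (A ^ 2 + B ^ 2) / δ)
  have hpi : π ≤ 315 / 100 := by linarith [Real.pi_lt_d2]
  set n := A ^ 2 + B ^ 2 with hn
  set Q := A ^ 2 - B ^ 2 with hQ
  set s := Q / n with hs
  obtain ⟨ht0, ht1, ht2, hn1, hk⟩ := key δ A B σ n Q s ((A + B) - s * (A - B))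
    (σ * n / (2 * ((A + B) - s * (A - B)))) (δ * (σ * n / (2 * ((A + B) - s * (A - B)))))
    hδ hδ1 hA hB hσ (hσ1.trans hpi) hn hQ hs rfl rfl rfl
  set t := δ * (σ * n / (2 * ((A + B) - s * (A - B)))) with ht
  refine ⟨t, ht0, ht1, ?_⟩
  have g1 : gr δ ((A : ℂ) + t, (B : ℂ) - t) =
      δ ^ 2 * ((n + 2 * t * (A - B) + 2 * t ^ 2) *
          phi ((Q + 2 * t * (A + B)) / (n + 2 * t * (A - B) + 2 * t ^ 2) / δ)) := by
    have e : (((A : ℂ) + t, (B : ℂ) - t) : ℂ × ℂ) = (((A + t : ℝ) : ℂ), ((B - t : ℝ) : ℂ)) := by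
      push_cast; rfl
    rw [gr, e, nsq_real, qf_real]
    have e1 : (A + t) ^ 2 + (B - t) ^ 2 = n + 2 * t * (A - B) + 2 * t ^ 2 := by rw [hn]; ring
    have e2 : (A + t) ^ 2 - (B - t) ^ 2 = Q + 2 * t * (A + B) := by rw [hQ]; ring
    rw [e1, e2]; ring
  have g2 : gr δ ((A : ℂ) - t, (B : ℂ) + t) =
      δ ^ 2 * ((n - 2 * t * (A - B) + 2 * t ^ 2) *
          phi ((Q - 2 * t * (A + B)) / (n - 2 * t * (A - B) + 2 * t ^ 2) / δ)) := by
    have e : (((A : ℂ) - t, (B : ℂ) + t) : ℂ × ℂ) = (((A - t : ℝ) : ℂ), ((B + t : ℝ) : ℂ)) := by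
      push_cast; rfl
    rw [gr, e, nsq_real, qf_real]
    have e1 : (A - t) ^ 2 + (B + t) ^ 2 = n - 2 * t * (A - B) + 2 * t ^ 2 := by rw [hn]; ring
    have e2 : (A - t) ^ 2 - (B + t) ^ 2 = Q - 2 * t * (A + B) := by rw [hQ]; ring
    rw [e1, e2]; ring
  have g3 : dgr δ ((A : ℂ), (B : ℂ)) ((t : ℂ), -(t : ℂ)) =
      2 * (t * (A - B)) * δ ^ 2 * phi (s / δ) +
          δ * dphi (s / δ) * (2 * (t * (A + B)) - 2 * s * (t * (A - B))) := by
    have e1 : ip ((A : ℂ), (B : ℂ)) ((t : ℂ), -(t : ℂ)) = t * (A - B) := by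
      simp [ip]; ring
    have e2 : bq ((A : ℂ), (B : ℂ)) ((t : ℂ), -(t : ℂ)) = t * (A + B) := by
      simp [bq]; ring
    rw [dgr, e1, e2, nsq_real, qf_real]
  rw [g1, g2, g3]
  have hF2 : δ ^ 2 * (43 / 100) ≤
      |δ ^ 2 * n * (phi (s / δ + σ) - phi (s / δ - σ) - 2 * σ * dphi (s / δ))| := by
    rw [abs_mul, abs_mul, abs_of_nonneg (sq_nonneg δ), abs_of_nonneg (by linarith : 0 ≤ n),
      mul_assoc]
    apply mul_le_mul_of_nonneg_left _ (sq_nonneg δ)
    nlinarith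
  have htt : t ^ 2 ≤ 9 / 4 * δ ^ 2 := by nlinarith
  have h3 := abs_sub_abs_le_abs_sub
    (δ ^ 2 * n * (phi (s / δ + σ) - phi (s / δ - σ) - 2 * σ * dphi (s / δ)))
    (δ ^ 2 * ((n + 2 * t * (A - B) + 2 * t ^ 2) *
          phi ((Q + 2 * t * (A + B)) / (n + 2 * t * (A - B) + 2 * t ^ 2) / δ)) -
        δ ^ 2 * ((n - 2 * t * (A - B) + 2 * t ^ 2) *
          phi ((Q - 2 * t * (A + B)) / (n - 2 * t * (A - B) + 2 * t ^ 2) / δ)) -
        2 * (2 * (t * (A - B)) * δ ^ 2 * phi (s / δ) +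
          δ * dphi (s / δ) * (2 * (t * (A + B)) - 2 * s * (t * (A - B)))))
  rw [abs_sub_comm] at hk
  have h4 : δ ^ 2 * (40 * δ) ≤ δ ^ 2 * (4 / 100) := by
    apply mul_le_mul_of_nonneg_left _ (sq_nonneg δ)
    linarith
  have hd2 : 0 < δ ^ 2 := by positivity
  linarith

end Pool.Agent.T2H75.NU
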