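import Mathlib

/-!
# BPBp-nu does not imply property (nu) (problem MP_3cb207_an): definitions and package statements

The space is `X = ℓ²(Blk n)`, where `Blk n` is `ℂ²` with the absolute norm
`N(a,b)² = |a|² + |b|² + κ g_δ(a,b)`, `g_δ(x) = δ² |x|² φ((|a|²-|b|²)/(δ|x|²))`,
`φ(r) = cos r - sin 2r`, `δ = δ_n → 0`.  The operator is the coordinate swap `D(a,b) = (b,a)` of a
block, divided by its norm.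
-/

namespace Pool.Agent.T2H75.NU

section Basic

variable {𝕜 : Type*} [RCLike 𝕜] {X : Type*} [NormedAddCommGroup X] [NormedSpace 𝕜 X]

/-- `(x, f) ∈ Π(X)`: `‖x‖ = ‖f‖ = 1 = f x`. -/
def IsPair (x : X) (f : X →L[𝕜] 𝕜) : Prop := ‖x‖ = 1 ∧ ‖f‖ = 1 ∧ f x = 1

/-- The numerical radius `ν(T) = sup {|f (T x)| : (x, f) ∈ Π(X)}`. -/
noncomputable def numRadius (T : X →L[𝕜] X) : ℝ :=
  sSup {r : ℝ | ∃ (x : X) (f : X →L[𝕜] 𝕜), IsPair x f ∧ r = ‖f (T x)‖}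

end Basic

/-- The Bishop–Phelps–Bollobás property for the numerical radius. -/
def BPBpNu (𝕜 : Type*) [RCLike 𝕜] (X : Type*) [NormedAddCommGroup X] [NormedSpace 𝕜 X] : Prop :=
  ∀ ε : ℝ, 0 < ε → ∃ η : ℝ, 0 < η ∧
    ∀ (T : X →L[𝕜] X), numRadius T = 1 →
      ∀ (x₀ : X) (f₀ : X →L[𝕜] 𝕜), IsPair x₀ f₀ → 1 - η < ‖f₀ (T x₀)‖ →
        ∃ (S : X →L[𝕜] X) (x₁ : X) (f₁ : X →L[𝕜] 𝕜), IsPair x₁ f₁ ∧
          numRadius S = 1 ∧ ‖f₁ (S x₁)‖ = 1 ∧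
          ‖S - T‖ < ε ∧ ‖x₁ - x₀‖ < ε ∧ ‖f₁ - f₀‖ < ε

/-- Property (nu). -/
def PropertyNu (𝕜 : Type*) [RCLike 𝕜] (X : Type*) [NormedAddCommGroup X] [NormedSpace 𝕜 X] :
    Prop :=
  ∀ ε : ℝ, 0 < ε → ∃ η : ℝ, 0 < η ∧
    ∀ (T : X →L[𝕜] X) (x₀ : X) (f₀ : X →L[𝕜] 𝕜), ‖T‖ = 1 → ‖x₀‖ = 1 → ‖f₀‖ = 1 →
      1 - η < RCLike.re (f₀ x₀) → ‖f₀ (T x₀)‖ = 1 →
        ∃ (x₁ : X) (f₁ : X →L[𝕜] 𝕜) (S : X →L[𝕜] X), ‖x₁‖ = 1 ∧ ‖f₁‖ = 1 ∧ ‖S‖ = 1 ∧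
          ‖f₁ (S x₁)‖ = 1 ∧ f₁ x₁ = 1 ∧
          ‖x₁ - x₀‖ < ε ∧ ‖f₁ - f₀‖ < ε ∧ ‖S - T‖ < ε

/-- Quantitative uniform convexity and uniform smoothness (both of power type 2). -/
def TwoConvexSmooth (X : Type*) [NormedAddCommGroup X] (c C : ℝ) : Prop :=
  ∀ x y : X, c * ‖y‖ ^ 2 ≤ (‖x + y‖ ^ 2 + ‖x - y‖ ^ 2) / 2 - ‖x‖ ^ 2 ∧
    (‖x + y‖ ^ 2 + ‖x - y‖ ^ 2) / 2 - ‖x‖ ^ 2 ≤ C * ‖y‖ ^ 2

/-! ## Package A: BPBp-nu for 2-uniformly convex and smooth spaces -/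

/-- Package A. -/
def AStmt : Prop :=
  ∀ (X : Type) [NormedAddCommGroup X] [NormedSpace ℂ X] [CompleteSpace X] (c C M : ℝ), 0 < c →
    TwoConvexSmooth X c C → (∀ T : X →L[ℂ] X, ‖T‖ ≤ M * numRadius T) → BPBpNu ℂ X

/-! ## Package B: the numerical index of a complex Banach space is at least 1/4 -/

/-- Package B. -/
def BStmt : Prop :=
  ∀ (X : Type) [NormedAddCommGroup X] [NormedSpace ℂ X] [CompleteSpace X] (T : X →L[ℂ] X),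
    ‖T‖ ≤ 4 * numRadius T

/-! ## The ripple -/

/-- `φ(r) = cos r - sin 2r`. -/
noncomputable def phi (r : ℝ) : ℝ := Real.cos r - Real.sin (2 * r)

/-- the derivative of `phi`. -/
noncomputable def dphi (r : ℝ) : ℝ := - Real.sin r - 2 * Real.cos (2 * r)

/-- `|x|²` -/
noncomputable def nsq (x : ℂ × ℂ) : ℝ := ‖x.1‖ ^ 2 + ‖x.2‖ ^ 2

/-- `|a|² - |b|²` -/
noncomputable def qf (x : ℂ × ℂ) : ℝ := ‖x.1‖ ^ 2 - ‖x.2‖ ^ 2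

/-- real inner product on `ℂ²` -/
noncomputable def ip (x y : ℂ × ℂ) : ℝ :=
  (starRingEnd ℂ x.1 * y.1).re + (starRingEnd ℂ x.2 * y.2).re

/-- the bilinear form of `qf` -/
noncomputable def bq (x y : ℂ × ℂ) : ℝ :=
  (starRingEnd ℂ x.1 * y.1).re - (starRingEnd ℂ x.2 * y.2).re

/-- The ripple `g_δ(x) = δ² |x|² φ(q(x)/(δ|x|²))`. -/
noncomputable def gr (δ : ℝ) (x : ℂ × ℂ) : ℝ := δ ^ 2 * nsq x * phi (qf x / nsq x / δ)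

/-- its derivative at `x` in the direction `h` -/
noncomputable def dgr (δ : ℝ) (x h : ℂ × ℂ) : ℝ :=
  2 * ip x h * δ ^ 2 * phi (qf x / nsq x / δ) +
    δ * dphi (qf x / nsq x / δ) * (2 * bq x h - 2 * (qf x / nsq x) * ip x h)

/-! ## Package C: the ripple is uniformly `C^{1,1}` -/

/-- Package C. -/
def CStmt : Prop :=
  ∀ (δ : ℝ), 0 < δ → δ ≤ 1 → ∀ x h : ℂ × ℂ, |gr δ (x + h) - gr δ x - dgr δ x h| ≤ 520 * nsq h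

/-! ## Package D: the ripple has no point of symmetry -/

/-- Package D. -/
def DStmt : Prop :=
  ∃ c₁ ε₁ δ₁ : ℝ, 0 < c₁ ∧ 0 < ε₁ ∧ 0 < δ₁ ∧ ∀ δ : ℝ, 0 < δ → δ ≤ δ₁ →
    ∀ A B : ℝ, |A - Real.sqrt 2 / 2| ≤ ε₁ → |B - Real.sqrt 2 / 2| ≤ ε₁ →
      ∃ t : ℝ, 0 < t ∧ t ≤ 1 ∧
        c₁ * t ^ 2 ≤ |gr δ ((A : ℂ) + t, (B : ℂ) - t) - gr δ ((A : ℂ) - t, (B : ℂ) + t) -
          2 * dgr δ ((A : ℂ), (B : ℂ)) ((t : ℂ), -(t : ℂ))|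

end Pool.Agent.T2H75.NU
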