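import Pool.Agent.T2H75.NU.NoS

/-!
# No contraction near the swap fixes a vector near `(1,1)/√2`
-/

namespace Pool.Agent.T2H75.NU

/-- the swap -/
def swp (v : ℂ × ℂ) : ℂ × ℂ := (v.2, v.1)

lemma en_add_le (x y : ℂ × ℂ) : en (x + y) ≤ en x + en y := by
  apply Real.sqrt_le_iff.2
  refine ⟨add_nonneg (en_nonneg x) (en_nonneg y), ?_⟩
  rw [nsq_add]
  have h := abs_ip_le x y
  rw [abs_le] at h
  have e1 := en_sq x
  have e2 := en_sq y
  nlinarith

lemma nsq_neg (x : ℂ × ℂ) : nsq (-x) = nsq x := by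
  have := nsq_smul (-1) x
  simpa using this

lemma en_neg (x : ℂ × ℂ) : en (-x) = en x := by unfold en; rw [nsq_neg]

/-- diagonal phases -/
noncomputable def dg (a b : ℂ) (x : ℂ × ℂ) : ℂ × ℂ := (a * x.1, b * x.2)

lemma nsq_dg {a b : ℂ} (ha : ‖a‖ = 1) (hb : ‖b‖ = 1) (x : ℂ × ℂ) : nsq (dg a b x) = nsq x := by
  unfold nsq dg
  simp [ha, hb]

lemma qf_dg {a b : ℂ} (ha : ‖a‖ = 1) (hb : ‖b‖ = 1) (x : ℂ × ℂ) : qf (dg a b x) = qf x := by
  unfold qf dg
  simp [ha, hb]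

lemma conj_mul_self {a : ℂ} (ha : ‖a‖ = 1) : starRingEnd ℂ a * a = 1 := by
  rw [mul_comm, Complex.mul_conj, Complex.normSq_eq_norm_sq, ha]; norm_num

lemma ip_dg {a b : ℂ} (ha : ‖a‖ = 1) (hb : ‖b‖ = 1) (x y : ℂ × ℂ) :
    ip (dg a b x) (dg a b y) = ip x y := by
  unfold ip dg
  have h1 : starRingEnd ℂ (a * x.1) * (a * y.1) = starRingEnd ℂ x.1 * y.1 := by
    rw [map_mul]
    calc _ = (starRingEnd ℂ a * a) * (starRingEnd ℂ x.1 * y.1) := by ring
      _ = _ := by rw [conj_mul_self ha, one_mul]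
  have h2 : starRingEnd ℂ (b * x.2) * (b * y.2) = starRingEnd ℂ x.2 * y.2 := by
    rw [map_mul]
    calc _ = (starRingEnd ℂ b * b) * (starRingEnd ℂ x.2 * y.2) := by ring
      _ = _ := by rw [conj_mul_self hb, one_mul]
  simp only [h1, h2]

lemma bq_dg {a b : ℂ} (ha : ‖a‖ = 1) (hb : ‖b‖ = 1) (x y : ℂ × ℂ) :
    bq (dg a b x) (dg a b y) = bq x y := by
  unfold bq dg
  have h1 : starRingEnd ℂ (a * x.1) * (a * y.1) = starRingEnd ℂ x.1 * y.1 := by
    rw [map_mul]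
    calc _ = (starRingEnd ℂ a * a) * (starRingEnd ℂ x.1 * y.1) := by ring
      _ = _ := by rw [conj_mul_self ha, one_mul]
  have h2 : starRingEnd ℂ (b * x.2) * (b * y.2) = starRingEnd ℂ x.2 * y.2 := by
    rw [map_mul]
    calc _ = (starRingEnd ℂ b * b) * (starRingEnd ℂ x.2 * y.2) := by ring
      _ = _ := by rw [conj_mul_self hb, one_mul]
  simp only [h1, h2]

lemma gr_dg {a b : ℂ} (ha : ‖a‖ = 1) (hb : ‖b‖ = 1) (δ : ℝ) (x : ℂ × ℂ) :
    gr δ (dg a b x) = gr δ x := by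
  unfold gr; rw [nsq_dg ha hb, qf_dg ha hb]

lemma dgr_dg {a b : ℂ} (ha : ‖a‖ = 1) (hb : ‖b‖ = 1) (δ : ℝ) (x y : ℂ × ℂ) :
    dgr δ (dg a b x) (dg a b y) = dgr δ x y := by
  unfold dgr; rw [nsq_dg ha hb, qf_dg ha hb, ip_dg ha hb, bq_dg ha hb]

lemma phase_close {z : ℂ} {e : ℝ} (he : e ≤ 1 / 9) (hz : ‖z - ((Real.sqrt 2 / 2 : ℝ) : ℂ)‖ ≤ e) :
    |‖z‖ - Real.sqrt 2 / 2| ≤ e ∧ 0 < ‖z‖ ∧ ‖z / (‖z‖ : ℂ) - 1‖ ≤ 4 * e := by
  have hs : (0.7 : ℝ) ≤ Real.sqrt 2 / 2 := by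
    have : (1.4 : ℝ) ≤ Real.sqrt 2 := Real.le_sqrt_of_sq_le (by norm_num)
    linarith
  have hs0 : (0 : ℝ) ≤ Real.sqrt 2 / 2 := by linarith
  have h1 : |‖z‖ - Real.sqrt 2 / 2| ≤ e := by
    have := abs_norm_sub_norm_le z ((Real.sqrt 2 / 2 : ℝ) : ℂ)
    rw [Complex.norm_real, Real.norm_of_nonneg hs0] at this
    exact this.trans hz
  have h2 := abs_le.1 h1
  have hpos : 1 / 2 ≤ ‖z‖ := by linarith
  have hp : 0 < ‖z‖ := by linarith
  refine ⟨h1, hp, ?_⟩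
  have e1 : z / (‖z‖ : ℂ) - 1 = (z - (‖z‖ : ℂ)) / (‖z‖ : ℂ) := by
    have : (‖z‖ : ℂ) ≠ 0 := by exact_mod_cast hp.ne'
    field_simp
  rw [e1, norm_div, Complex.norm_real, norm_norm, div_le_iff₀ hp]
  have h3 : ‖z - (‖z‖ : ℂ)‖ ≤ 2 * e := by
    calc ‖z - (‖z‖ : ℂ)‖ = ‖(z - ((Real.sqrt 2 / 2 : ℝ) : ℂ)) - ((‖z‖ - Real.sqrt 2 / 2 : ℝ) : ℂ)‖ := by
          push_cast; ring_nf
      _ ≤ ‖z - ((Real.sqrt 2 / 2 : ℝ) : ℂ)‖ + ‖((‖z‖ - Real.sqrt 2 / 2 : ℝ) : ℂ)‖ := norm_sub_le _ _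
      _ ≤ e + e := by
          gcongr
          rw [Complex.norm_real, Real.norm_eq_abs]; exact h1
      _ = 2 * e := by ring
  have he0 : 0 ≤ e := (norm_nonneg _).trans hz
  nlinarith

theorem no_fixed : ∃ e₀ d₀ : ℝ, 0 < e₀ ∧ 0 < d₀ ∧ e₀ ≤ 1 / 9 ∧ ∀ n : ℕ, del n ≤ d₀ →
    ∀ (S : XX →L[ℂ] XX) (x₁ : XX), (∀ x, ‖S x‖ ≤ ‖x‖) → S x₁ = x₁ →
      (∀ v, en (comp S n v - swp v) ≤ e₀ * en v) →
      ‖(x₁ n).val.1 - ((Real.sqrt 2 / 2 : ℝ) : ℂ)‖ ≤ e₀ →
      ‖(x₁ n).val.2 - ((Real.sqrt 2 / 2 : ℝ) : ℂ)‖ ≤ e₀ → False := by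
  obtain ⟨c₁, ε₁, δ₁, hc₁, hε₁, hδ₁, hD⟩ := d_stmt
  refine ⟨min (min ε₁ (1 / 9)) (kap * c₁ / 70), δ₁, ?_, hδ₁, (min_le_left _ _).trans (min_le_right _ _), ?_⟩
  · have := kap_pos
    positivity
  set e₀ := min (min ε₁ (1 / 9)) (kap * c₁ / 70) with he₀
  intro n hn S x₁ hS hx hcl h1 h2
  have he9 : e₀ ≤ 1 / 9 := (min_le_left _ _).trans (min_le_right _ _)
  have heε : e₀ ≤ ε₁ := (min_le_left _ _).trans (min_le_left _ _)
  have hek : e₀ ≤ kap * c₁ / 70 := min_le_right _ _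
  have he0 : 0 ≤ e₀ := (norm_nonneg _).trans h1
  set u := (x₁ n).val with hu
  obtain ⟨a1, a2, a3⟩ := phase_close he9 h1
  obtain ⟨b1, b2, b3⟩ := phase_close he9 h2
  set A := ‖u.1‖ with hA
  set B := ‖u.2‖ with hB
  set a := u.1 / (A : ℂ) with ha
  set b := u.2 / (B : ℂ) with hb
  have hna : ‖a‖ = 1 := by
    rw [ha, norm_div, Complex.norm_real, Real.norm_of_nonneg a2.le, ← hA, div_self a2.ne']
  have hnb : ‖b‖ = 1 := by
    rw [hb, norm_div, Complex.norm_real, Real.norm_of_nonneg b2.le, ← hB, div_self b2.ne']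
  have hua : u = dg a b ((A : ℂ), (B : ℂ)) := by
    have hA0 : (A : ℂ) ≠ 0 := by exact_mod_cast a2.ne'
    have hB0 : (B : ℂ) ≠ 0 := by exact_mod_cast b2.ne'
    unfold dg
    ext1
    · show u.1 = a * (A : ℂ)
      rw [ha]; field_simp
    · show u.2 = b * (B : ℂ)
      rw [hb]; field_simp
  obtain ⟨t, ht0, ht1, hDt⟩ := hD (del n) (del_pos n) hn A B (a1.trans heε) (b1.trans heε)
  set v : ℂ × ℂ := dg a b ((t : ℂ), -(t : ℂ)) with hv
  have hnv : nsq v = 2 * t ^ 2 := by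
    rw [hv, nsq_dg hna hnb]
    unfold nsq
    simp only [norm_neg, Complex.norm_real, Real.norm_eq_abs, sq_abs]
    ring
  have hdiff : c₁ * t ^ 2 ≤ |rem (del n) u v - rem (del n) u (-v)| := by
    have e1 : u + v = dg a b ((A : ℂ) + t, (B : ℂ) - t) := by
      rw [hua, hv]; unfold dg
      ext1 <;> simp <;> ring
    have e2 : u + -v = dg a b ((A : ℂ) - t, (B : ℂ) + t) := by
      rw [hua, hv]; unfold dg
      ext1 <;> simp <;> ring
    have e3 : dgr (del n) u (-v) = - dgr (del n) u v := by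
      have := dgr_rsmul (del n) u v (-1)
      simpa using this
    have e4 : dgr (del n) u v = dgr (del n) ((A : ℂ), (B : ℂ)) ((t : ℂ), -(t : ℂ)) := by
      rw [hua, hv, dgr_dg hna hnb]
    have e5 : rem (del n) u v - rem (del n) u (-v) =
        gr (del n) ((A : ℂ) + t, (B : ℂ) - t) - gr (del n) ((A : ℂ) - t, (B : ℂ) + t) -
          2 * dgr (del n) ((A : ℂ), (B : ℂ)) ((t : ℂ), -(t : ℂ)) := by
      unfold rem
      rw [e1, e2, e3, e4, gr_dg hna hnb, gr_dg hna hnb]; ring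
    rw [e5]; exact hDt
  -- the swap nearly negates `v`
  have hab : ‖a - b‖ ≤ 8 * e₀ := by
    calc ‖a - b‖ = ‖(a - 1) - (b - 1)‖ := by ring_nf
      _ ≤ ‖a - 1‖ + ‖b - 1‖ := norm_sub_le _ _
      _ ≤ 4 * e₀ + 4 * e₀ := add_le_add a3 b3
      _ = _ := by ring
  have hsw : ∀ s : ℝ, |s| = 1 → en (swp (s • v) + s • v) ≤ 8 * e₀ * en v := by
    intro s hs
    have e1 : nsq (swp (s • v) + s • v) = ‖a - b‖ ^ 2 * nsq v := by
      have h3 : swp (s • v) + s • v = (((s * t : ℝ) : ℂ) * (a - b), ((s * t : ℝ) : ℂ) * (a - b)) := by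
        rw [hv]; unfold swp dg
        ext1 <;> simp <;> ring
      rw [h3, hnv]
      unfold nsq
      simp only [norm_mul, Complex.norm_real, Real.norm_eq_abs, hs, one_mul, abs_mul]
      rw [mul_pow, sq_abs]; ring
    unfold en
    rw [e1, Real.sqrt_mul (sq_nonneg _), Real.sqrt_sq (norm_nonneg _)]
    gcongr
  -- choose the sign
  have main : ∀ s : ℝ, |s| = 1 →
      c₁ * t ^ 2 ≤ rem (del n) u (-(s • v)) - rem (del n) u (s • v) → False := by
    intro s hs hr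
    set v' := s • v with hv'
    have hnv' : nsq v' = nsq v := by
      rw [hv', nsq_rsmul, ← sq_abs, hs]; ring
    have hev' : en v' = en v := by unfold en; rw [hnv']
    have key := fixed_ineq n S hS x₁ hx v'
    rw [← hu] at key
    set w := comp S n v' with hw
    set k := w + v' with hk
    have hkn : en k ≤ 9 * e₀ * en v := by
      have h3 : k = (w - swp v') + (swp v' + v') := by rw [hk]; abel
      rw [h3]
      calc _ ≤ en (w - swp v') + en (swp v' + v') := en_add_le _ _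
        _ ≤ e₀ * en v' + 8 * e₀ * en v := add_le_add (hcl v') (hsw s hs)
        _ = 9 * e₀ * en v := by rw [hev']; ring
    have hwk : w = -v' + k := by rw [hk]; abel
    have hE := en_nonneg v
    have hK := en_nonneg k
    have hE2 := en_sq v
    have hK2 := en_sq k
    have r1 := rem_lip (del_pos n) (del_le_one n) u (-v') k
    rw [← hwk, en_neg, hev'] at r1
    have r2 : 520 * nsq k + 3120 * (en v * en k) ≤ 32760 * e₀ * nsq v := by
      rw [← hK2, ← hE2]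
      have k1 : en k ^ 2 ≤ 9 * e₀ * en v ^ 2 := by
        calc en k ^ 2 ≤ (9 * e₀ * en v) ^ 2 := by gcongr
          _ = (9 * e₀) * (9 * e₀ * en v ^ 2) := by ring
          _ ≤ 1 * (9 * e₀ * en v ^ 2) := by gcongr; linarith
          _ = _ := one_mul _
      have k2 : en v * en k ≤ 9 * e₀ * en v ^ 2 := by
        calc en v * en k ≤ en v * (9 * e₀ * en v) := by gcongr
          _ = _ := by ring
      nlinarith
    have r3 : nsq v - 18 * e₀ * nsq v ≤ nsq w := by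
      rw [hwk, nsq_add, nsq_neg, hnv']
      have h4 := abs_ip_le (-v') k
      rw [en_neg, hev'] at h4
      have h5 := (abs_le.1 h4).1
      have h6 := nsq_nonneg k
      have k2 : en v * en k ≤ 9 * e₀ * nsq v := by
        rw [← hE2]
        calc en v * en k ≤ en v * (9 * e₀ * en v) := by gcongr
          _ = _ := by ring
      linarith
    have r4 := (abs_le.1 r1).1
    have hkap : kap = 1 / 2080 := rfl
    have hkp := kap_pos
    have f1 : kap * (c₁ * t ^ 2) ≤ 18 * e₀ * nsq v + kap * (32760 * e₀ * nsq v) := by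
      have g1 : kap * (c₁ * t ^ 2) ≤ kap * (rem (del n) u (-v') - rem (del n) u v') := by gcongr
      have g2 : kap * (rem (del n) u (-v') - 32760 * e₀ * nsq v) ≤ kap * rem (del n) u w := by
        gcongr; linarith
      rw [hnv'] at key
      nlinarith
    rw [hnv, hkap] at f1
    have ht2 : 0 < t ^ 2 := by positivity
    rw [hkap] at hek
    nlinarith
  rcases le_total 0 (rem (del n) u v - rem (del n) u (-v)) with hsgn | hsgn
  · apply main (-1) (by norm_num)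
    rw [abs_of_nonneg hsgn] at hdiff
    simpa using hdiff
  · apply main 1 (by norm_num)
    rw [abs_of_nonpos hsgn] at hdiff
    simpa using hdiff

end Pool.Agent.T2H75.NU
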