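import Pool.Agent.T2H75.NU.Space
import Pool.Agent.T2H75.NU.D

/-!
# A contraction near the swap has no fixed vector near `(1,1)/√2`
-/

namespace Pool.Agent.T2H75.NU

open scoped ENNReal

lemma nsq_rsmul (t : ℝ) (x : ℂ × ℂ) : nsq (t • x) = t ^ 2 * nsq x := by
  rw [nsq_eq, nsq_eq]
  simp only [Prod.smul_fst, Prod.smul_snd, Complex.real_smul, Complex.mul_re,
    Complex.ofReal_re, Complex.ofReal_im, Complex.mul_im]
  ring

lemma en_rsmul (t : ℝ) (x : ℂ × ℂ) : en (t • x) = |t| * en x := by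
  unfold en
  rw [nsq_rsmul, Real.sqrt_mul (sq_nonneg t), Real.sqrt_sq_eq_abs]

lemma en_eq_zero {x : ℂ × ℂ} (h : en x = 0) : x = 0 := by
  have h2 : nsq x = 0 := by rw [← en_sq, h]; norm_num
  unfold nsq at h2
  have h4 : ‖x.1‖ ^ 2 = 0 := by nlinarith [sq_nonneg ‖x.1‖, sq_nonneg ‖x.2‖]
  have h5 : ‖x.2‖ ^ 2 = 0 := by nlinarith [sq_nonneg ‖x.1‖, sq_nonneg ‖x.2‖]
  ext1
  · simpa using h4
  · simpa using h5

lemma nsq_add_le (x y : ℂ × ℂ) : nsq (x + y) ≤ 2 * nsq x + 2 * nsq y := by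
  rw [nsq_eq, nsq_eq, nsq_eq]
  simp only [Prod.fst_add, Prod.snd_add, Complex.add_re, Complex.add_im]
  nlinarith [sq_nonneg (x.1.re - y.1.re), sq_nonneg (x.1.im - y.1.im),
    sq_nonneg (x.2.re - y.2.re), sq_nonneg (x.2.im - y.2.im)]

/-- The derivative of the ripple is Lipschitz. -/
lemma dgr_lip {δ : ℝ} (h0 : 0 < δ) (h1 : δ ≤ 1) (p h k : ℂ × ℂ) :
    |dgr δ (p + h) k - dgr δ p k| ≤ 3120 * (en h * en k) := by
  have base : ∀ k' : ℂ × ℂ, en k' = en h → |dgr δ (p + h) k' - dgr δ p k'| ≤ 3120 * en h ^ 2 := by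
    intro k' hk
    have a1 := c_stmt δ h0 h1 (p + h) k'
    have a2 := c_stmt δ h0 h1 p (h + k')
    have a3 := c_stmt δ h0 h1 p h
    rw [dgr_add, ← add_assoc] at a2
    have b1 : nsq k' = en h ^ 2 := by rw [← en_sq, hk]
    have b2 : nsq h = en h ^ 2 := (en_sq h).symm
    have b3 := nsq_add_le h k'
    rw [b1] at a1
    rw [b2] at a3
    rw [b1, b2] at b3
    rw [abs_le] at a1 a2 a3 ⊢
    constructor <;> linarith
  rcases (en_nonneg h).eq_or_lt with hh | hh
  · have : h = 0 := en_eq_zero hh.symm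
    rw [this, add_zero, sub_self, abs_zero]
    have := mul_nonneg (en_nonneg (0 : ℂ × ℂ)) (en_nonneg k)
    linarith
  rcases (en_nonneg k).eq_or_lt with hk | hk
  · have : k = 0 := en_eq_zero hk.symm
    have e : ∀ q : ℂ × ℂ, dgr δ q 0 = 0 := fun q => by
      have := dgr_rsmul δ q 0 0
      simpa using this
    rw [this, e, e, sub_self, abs_zero]
    have := mul_nonneg (en_nonneg h) (en_nonneg (0 : ℂ × ℂ))
    linarith
  have hb := base ((en h / en k) • k) (by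
    rw [en_rsmul, abs_of_pos (div_pos hh hk)]; field_simp)
  rw [dgr_rsmul, dgr_rsmul, ← mul_sub, abs_mul, abs_of_pos (div_pos hh hk)] at hb
  have h2 : en h / en k * |dgr δ (p + h) k - dgr δ p k| ≤ en h / en k * (3120 * (en h * en k)) := by
    calc _ ≤ _ := hb
      _ = _ := by field_simp
  exact le_of_mul_le_mul_left h2 (div_pos hh hk)

/-- remainder -/
noncomputable def rem (δ : ℝ) (u h : ℂ × ℂ) : ℝ := gr δ (u + h) - gr δ u - dgr δ u h

lemma rem_lip {δ : ℝ} (h0 : 0 < δ) (h1 : δ ≤ 1) (u h k : ℂ × ℂ) :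
    |rem δ u (h + k) - rem δ u h| ≤ 520 * nsq k + 3120 * (en h * en k) := by
  have a1 := c_stmt δ h0 h1 (u + h) k
  have a2 := dgr_lip h0 h1 u h k
  unfold rem
  rw [dgr_add, ← add_assoc]
  rw [abs_le] at a1 a2 ⊢
  constructor <;> linarith

lemma Nsq_rem (δ : ℝ) (u h : ℂ × ℂ) :
    Nsq δ (u + h) = Nsq δ u + dN δ u h + (nsq h + kap * rem δ u h) := by
  unfold Nsq dN rem
  rw [nsq_add]; ring

/-- Splitting off a block. -/
lemma norm_sq_split (n : ℕ) (x : XX) :
    ‖x‖ ^ 2 = ‖x n‖ ^ 2 + ‖x - lp.single 2 n (x n)‖ ^ 2 := by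
  have h := lp.norm_sub_norm_compl_sub_single (p := 2) (by norm_num) x {n}
  have h2 : (2 : ℝ≥0∞).toReal = (2 : ℕ) := by norm_num
  rw [h2] at h
  simp only [Real.rpow_natCast, Finset.sum_singleton] at h
  linarith

/-- Supporting functional. -/
lemma exists_support {E : Type*} [NormedAddCommGroup E] [NormedSpace ℂ E] (z : E) :
    ∃ f : E →L[ℂ] ℂ, ∀ k : E, ‖z‖ ^ 2 + 2 * ‖z‖ * (f k).re ≤ ‖z + k‖ ^ 2 := by
  obtain ⟨f, hf, hfz⟩ := exists_dual_vector'' ℂ z
  refine ⟨f, fun k => ?_⟩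
  have h1 : ‖f (z + k)‖ ≤ ‖z + k‖ := by
    calc _ ≤ ‖f‖ * ‖z + k‖ := f.le_opNorm _
      _ ≤ 1 * ‖z + k‖ := by gcongr
      _ = _ := one_mul _
  have h2 : (f (z + k)).re ≤ ‖z + k‖ := (Complex.re_le_norm _).trans h1
  rw [map_add, hfz, Complex.add_re] at h2
  have h3 : ((‖z‖ : ℝ) : ℂ).re = ‖z‖ := Complex.ofReal_re _
  have h2' : ‖z‖ + (f k).re ≤ ‖z + k‖ := by
    have : ((RCLike.ofReal ‖z‖ : ℂ)).re = ‖z‖ := Complex.ofReal_re _
    simpa [this] using h2
  have hz := norm_nonneg z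
  have hzk := norm_nonneg (z + k)
  by_cases hc : 0 ≤ ‖z‖ + (f k).re
  · nlinarith [sq_nonneg ((f k).re)]
  · push Not at hc
    nlinarith [sq_nonneg ‖z + k‖]

/-- The compression of `S` to the `n`-th block, in coordinates. -/
noncomputable def comp (S : XX →L[ℂ] XX) (n : ℕ) (v : ℂ × ℂ) : ℂ × ℂ :=
  ((S (lp.single 2 n (Blk.mk n v))) n).val

lemma comp_add (S : XX →L[ℂ] XX) (n : ℕ) (v w : ℂ × ℂ) :
    comp S n (v + w) = comp S n v + comp S n w := by
  unfold comp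
  rw [Blk.mk_add, lp.single_add, map_add]
  rfl

lemma comp_smul (S : XX →L[ℂ] XX) (n : ℕ) (c : ℂ) (v : ℂ × ℂ) :
    comp S n (c • v) = c • comp S n v := by
  unfold comp
  rw [Blk.mk_smul, lp.single_smul, map_smul]
  rfl

lemma comp_neg (S : XX →L[ℂ] XX) (n : ℕ) (v : ℂ × ℂ) : comp S n (-v) = -comp S n v := by
  have := comp_smul S n (-1) v
  simpa using this

lemma comp_rsmul (S : XX →L[ℂ] XX) (n : ℕ) (t : ℝ) (v : ℂ × ℂ) :
    comp S n (t • v) = t • comp S n v := by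
  have h := comp_smul S n (t : ℂ) v
  have h2 : ∀ w : ℂ × ℂ, (t : ℂ) • w = t • w := fun w => by ext1 <;> simp
  rwa [h2, h2] at h

/-- The key inequality at a fixed vector of a contraction. -/
lemma fixed_ineq (n : ℕ) (S : XX →L[ℂ] XX) (hS : ∀ x, ‖S x‖ ≤ ‖x‖) (x₁ : XX) (hx : S x₁ = x₁)
    (v : ℂ × ℂ) :
    nsq (comp S n v) + kap * rem (del n) (x₁ n).val (comp S n v) ≤
      nsq v + kap * rem (del n) (x₁ n).val v := by
  set u := (x₁ n).val with hu
  set z := x₁ - lp.single 2 n (x₁ n) with hz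
  obtain ⟨f, hf⟩ := exists_support z
  -- the rest of `S (single v)`
  set K : ℂ × ℂ → XX := fun v =>
    S (lp.single 2 n (Blk.mk n v)) - lp.single 2 n ((S (lp.single 2 n (Blk.mk n v))) n) with hK
  have main : ∀ v : ℂ × ℂ, Nsq (del n) (u + comp S n v) + (‖z‖ ^ 2 + 2 * ‖z‖ * (f (K v)).re) ≤
      Nsq (del n) (u + v) + ‖z‖ ^ 2 := by
    intro v
    have h1 := hS (x₁ + lp.single 2 n (Blk.mk n v))
    rw [map_add, hx] at h1
    have h2 : ‖x₁ + S (lp.single 2 n (Blk.mk n v))‖ ^ 2 ≤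
        ‖x₁ + lp.single 2 n (Blk.mk n v)‖ ^ 2 := by gcongr
    rw [norm_sq_split n, norm_sq_split n (x₁ + lp.single 2 n (Blk.mk n v))] at h2
    have e1 : (x₁ + S (lp.single 2 n (Blk.mk n v)) : XX) n =
        x₁ n + S (lp.single 2 n (Blk.mk n v)) n := rfl
    have e2 : (x₁ + lp.single 2 n (Blk.mk n v) : XX) n = x₁ n + Blk.mk n v := by
      show x₁ n + (lp.single 2 n (Blk.mk n v) : XX) n = _
      rw [lp.single_apply_self]
    rw [e1, e2, Blk.norm_sq, Blk.norm_sq, Blk.val_add, Blk.val_add, Blk.val_mk] at h2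
    have e3 : x₁ + S (lp.single 2 n (Blk.mk n v)) -
        lp.single 2 n (x₁ n + S (lp.single 2 n (Blk.mk n v)) n) = z + K v := by
      rw [lp.single_add, hz, hK]; exact add_sub_add_comm _ _ _ _
    have e4 : x₁ + lp.single 2 n (Blk.mk n v) - lp.single 2 n (x₁ n + Blk.mk n v) = z := by
      rw [lp.single_add, hz, add_sub_add_comm, sub_self, add_zero]
    rw [e3, e4] at h2
    have h3 := hf (K v)
    have : Nsq (del n) (u + comp S n v) + ‖z + K v‖ ^ 2 ≤ Nsq (del n) (u + v) + ‖z‖ ^ 2 := h2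
    linarith
  -- the linear functional
  set L : ℂ × ℂ → ℝ := fun v => 2 * ‖z‖ * (f (K v)).re + dN (del n) u (comp S n v) -
    dN (del n) u v with hL
  have hKs : ∀ (t : ℝ) (v : ℂ × ℂ), K (t • v) = (t : ℂ) • K v := by
    intro t v
    have h2 : t • v = (t : ℂ) • v := by ext1 <;> simp
    rw [hK]
    simp only
    rw [h2, Blk.mk_smul, lp.single_smul, map_smul]
    have : ((t : ℂ) • S (lp.single 2 n (Blk.mk n v)) : XX) n =
      (t : ℂ) • (S (lp.single 2 n (Blk.mk n v)) n) := rfl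
    rw [this, lp.single_smul, smul_sub]
  have hLs : ∀ (t : ℝ) (v : ℂ × ℂ), L (t • v) = t * L v := by
    intro t v
    rw [hL]
    simp only
    rw [hKs, comp_rsmul, dN_rsmul, dN_rsmul, map_smul]
    have : ((t : ℂ) • f (K v)).re = t * (f (K v)).re := by simp
    rw [this]; ring
  have hLb : ∀ v : ℂ × ℂ, L v ≤ 5 / 4 * nsq v := by
    intro v
    have h1 := main v
    have h2 := (Nsq_taylor (del_pos n) (del_le_one n) u (comp S n v)).1
    have h3 := (Nsq_taylor (del_pos n) (del_le_one n) u v).2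
    have h4 := nsq_nonneg (comp S n v)
    rw [hL]
    simp only
    linarith
  have hL0 : ∀ v : ℂ × ℂ, L v ≤ 0 := by
    intro v
    by_contra hcon
    push Not at hcon
    have hnv := nsq_nonneg v
    -- take `t` small
    set t := L v / (2 * (5 / 4 * nsq v + L v)) with ht
    have hden : 0 < 5 / 4 * nsq v + L v := by linarith
    have htp : 0 < t := by rw [ht]; positivity
    have h1 := hLb (t • v)
    rw [hLs, nsq_rsmul] at h1
    have h2 : L v ≤ 5 / 4 * (t * nsq v) := by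
      have : t * L v ≤ t * (5 / 4 * (t * nsq v)) := by nlinarith
      exact le_of_mul_le_mul_left this htp
    have h3 : t * (5 / 4 * nsq v) ≤ L v / 2 := by
      have : t * (5 / 4 * nsq v + L v) = L v / 2 := by rw [ht]; field_simp
      nlinarith
    nlinarith
  have hLz : L v = 0 := by
    apply le_antisymm (hL0 v)
    have h1 := hL0 ((-1 : ℝ) • v)
    rw [hLs] at h1
    linarith
  have h1 := main v
  rw [Nsq_rem, Nsq_rem] at h1
  rw [hL] at hLz
  simp only at hLz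
  linarith

end Pool.Agent.T2H75.NU
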