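import Pool.Agent.T2H75.NU.NoFix

/-!
# The operators `T_n` (normalised swaps)
-/

namespace Pool.Agent.T2H75.NU

open scoped ENNReal

/-- `1 + κ δ² φ(r)` -/
noncomputable def wt (δ r : ℝ) : ℝ := 1 + kap * δ ^ 2 * phi r

lemma wt_bounds {δ : ℝ} (h0 : 0 < δ) (h1 : δ ≤ 1) (r : ℝ) :
    1 - δ ^ 2 / 1000 ≤ wt δ r ∧ wt δ r ≤ 1 + δ ^ 2 / 1000 := by
  have h := abs_le.1 (abs_phi_le r)
  have hd : 0 < δ ^ 2 := by positivity
  unfold wt kap
  constructor <;> nlinarith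

lemma wt_pos {δ : ℝ} (h0 : 0 < δ) (h1 : δ ≤ 1) (r : ℝ) : 0 < wt δ r := by
  have := (wt_bounds h0 h1 r).1
  have h2 : δ ^ 2 ≤ 1 := by nlinarith
  linarith

lemma phi_continuous : Continuous phi := by
  unfold phi
  exact Real.continuous_cos.sub (Real.continuous_sin.comp (continuous_const.mul continuous_id))

lemma phi_periodic : Function.Periodic phi (2 * Real.pi) := by
  intro r
  unfold phi
  rw [Real.cos_add_two_pi]
  have : 2 * (r + 2 * Real.pi) = 2 * r + 2 * Real.pi + 2 * Real.pi := by ring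
  rw [this, Real.sin_add_two_pi, Real.sin_add_two_pi]

/-- the ratio `N²(swap x)/N²(x)` as a function of `q/δ`. -/
noncomputable def rat (δ r : ℝ) : ℝ := wt δ (-r) / wt δ r

lemma exists_max {δ : ℝ} (h0 : 0 < δ) (h1 : δ ≤ 1) :
    ∃ r₀ : ℝ, 0 ≤ r₀ ∧ r₀ ≤ 2 * Real.pi ∧ ∀ r, rat δ r ≤ rat δ r₀ := by
  have hcw : Continuous (fun r => wt δ r) := by
    unfold wt
    exact continuous_const.add (continuous_const.mul phi_continuous)
  have hc : Continuous (fun r => rat δ r) := by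
    unfold rat
    exact (hcw.comp continuous_neg).div hcw (fun r => (wt_pos h0 h1 r).ne')
  have hpp : 0 < 2 * Real.pi := by positivity
  obtain ⟨r₀, hr₀, hmax⟩ := (isCompact_Icc (a := (0:ℝ)) (b := 2 * Real.pi)).exists_isMaxOn
    ⟨0, by constructor <;> linarith⟩ hc.continuousOn
  refine ⟨r₀, hr₀.1, hr₀.2, fun r => ?_⟩
  have hper : Function.Periodic (fun r => rat δ r) (2 * Real.pi) := by
    intro r
    have e1 : phi (-(r + 2 * Real.pi)) = phi (-r) := by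
      have := phi_periodic (-(r + 2 * Real.pi))
      rw [← this]; congr 1; ring
    show rat δ (r + 2 * Real.pi) = rat δ r
    unfold rat wt
    rw [e1, phi_periodic r]
  obtain ⟨y, hy, hy2⟩ := hper.exists_mem_Ico₀ hpp r
  have : rat δ r = rat δ y := hy2
  rw [this]
  exact hmax ⟨hy.1, hy.2.le⟩

lemma rat_bounds {δ : ℝ} (h0 : 0 < δ) (h1 : δ ≤ 1) {r₀ : ℝ} (hr : ∀ r, rat δ r ≤ rat δ r₀) :
    1 ≤ rat δ r₀ ∧ rat δ r₀ ≤ 1 + δ ^ 2 := by
  constructor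
  · have := hr 0
    have h2 : rat δ 0 = 1 := by
      unfold rat; rw [neg_zero, div_self (wt_pos h0 h1 0).ne']
    linarith
  · unfold rat
    rw [div_le_iff₀ (wt_pos h0 h1 r₀)]
    have a1 := (wt_bounds h0 h1 (-r₀)).2
    have a2 := (wt_bounds h0 h1 r₀).1
    have h2 : δ ^ 2 ≤ 1 := by nlinarith
    have h3 : 0 < δ ^ 2 := by positivity
    nlinarith

lemma nsq_swp (x : ℂ × ℂ) : nsq (swp x) = nsq x := by unfold nsq swp; ring

lemma qf_swp (x : ℂ × ℂ) : qf (swp x) = - qf x := by unfold qf swp; ring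

lemma Nsq_eq_wt (δ : ℝ) (x : ℂ × ℂ) : Nsq δ x = nsq x * wt δ (qf x / nsq x / δ) := by
  unfold Nsq gr wt; ring

lemma Nsq_swp_eq {δ : ℝ} (x : ℂ × ℂ) :
    Nsq δ (swp x) = nsq x * wt δ (-(qf x / nsq x / δ)) := by
  rw [Nsq_eq_wt, nsq_swp, qf_swp, neg_div, neg_div]

lemma Nsq_swp_le {δ : ℝ} (h0 : 0 < δ) (h1 : δ ≤ 1) {r₀ : ℝ} (hr : ∀ r, rat δ r ≤ rat δ r₀)
    (x : ℂ × ℂ) : Nsq δ (swp x) ≤ rat δ r₀ * Nsq δ x := by
  rw [Nsq_swp_eq, Nsq_eq_wt]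
  have h := hr (qf x / nsq x / δ)
  have hw := wt_pos h0 h1 (qf x / nsq x / δ)
  have h2 : wt δ (-(qf x / nsq x / δ)) ≤ rat δ r₀ * wt δ (qf x / nsq x / δ) := by
    have : rat δ (qf x / nsq x / δ) = wt δ (-(qf x / nsq x / δ)) / wt δ (qf x / nsq x / δ) := rfl
    rw [this, div_le_iff₀ hw] at h
    exact h
  have hn := nsq_nonneg x
  calc _ ≤ nsq x * (rat δ r₀ * wt δ (qf x / nsq x / δ)) := by gcongr
    _ = _ := by ring

/-- The base point of the block. -/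
noncomputable def y0 (q : ℝ) : ℂ × ℂ := ((Real.sqrt ((1 + q) / 2) : ℝ), (Real.sqrt ((1 - q) / 2) : ℝ))

lemma nsq_y0 {q : ℝ} (hq : 0 ≤ q) (hq1 : q ≤ 1) : nsq (y0 q) = 1 := by
  unfold nsq y0
  simp only [Complex.norm_real, Real.norm_eq_abs, sq_abs]
  rw [Real.sq_sqrt (by linarith), Real.sq_sqrt (by linarith)]; ring

lemma qf_y0 {q : ℝ} (hq : 0 ≤ q) (hq1 : q ≤ 1) : qf (y0 q) = q := by
  unfold qf y0
  simp only [Complex.norm_real, Real.norm_eq_abs, sq_abs]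
  rw [Real.sq_sqrt (by linarith), Real.sq_sqrt (by linarith)]; ring

lemma sqrt_close {a q : ℝ} (ha : 0 ≤ a) (hq : |a - 1 / 2| ≤ q / 2) :
    |Real.sqrt a - Real.sqrt 2 / 2| ≤ q := by
  have hs : (0.7 : ℝ) ≤ Real.sqrt 2 / 2 := by
    have : (1.4 : ℝ) ≤ Real.sqrt 2 := Real.le_sqrt_of_sq_le (by norm_num)
    linarith
  have h2 : (Real.sqrt 2 / 2) ^ 2 = 1 / 2 := by
    rw [div_pow, Real.sq_sqrt (by norm_num)]; norm_num
  have h3 := Real.sq_sqrt ha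
  have h4 := Real.sqrt_nonneg a
  have h5 : (Real.sqrt a - Real.sqrt 2 / 2) * (Real.sqrt a + Real.sqrt 2 / 2) = a - 1 / 2 := by
    nlinarith
  have h6 : |Real.sqrt a - Real.sqrt 2 / 2| * (Real.sqrt a + Real.sqrt 2 / 2) ≤ q / 2 := by
    rw [← abs_of_nonneg (show 0 ≤ Real.sqrt a + Real.sqrt 2 / 2 by linarith), ← abs_mul, h5]
    exact hq
  have h7 := abs_nonneg (Real.sqrt a - Real.sqrt 2 / 2)
  nlinarith

lemma y0_close {q : ℝ} (hq : 0 ≤ q) (hq1 : q ≤ 1) :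
    |Real.sqrt ((1 + q) / 2) - Real.sqrt 2 / 2| ≤ q ∧
      |Real.sqrt ((1 - q) / 2) - Real.sqrt 2 / 2| ≤ q := by
  constructor
  · apply sqrt_close (by linarith)
    rw [abs_le]; constructor <;> linarith
  · apply sqrt_close (by linarith)
    rw [abs_le]; constructor <;> linarith

/-- data of the normalised swap on the `n`-th block -/
theorem exists_op (n : ℕ) : ∃ (T : XX →L[ℂ] XX) (X₀ : XX) (m : ℝ), 1 ≤ m ∧ m ≤ 1 + del n ∧
    ‖T‖ = 1 ∧ ‖X₀‖ = 1 ∧ ‖T X₀‖ = 1 ∧ ‖X₀ - T X₀‖ ≤ 20 * del n ∧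
    (∀ v, T (lp.single 2 n (Blk.mk n v)) =
      ((m⁻¹ : ℝ) : ℂ) • lp.single 2 n (Blk.mk n (swp v))) ∧
    ‖(X₀ n).val.1 - ((Real.sqrt 2 / 2 : ℝ) : ℂ)‖ ≤ 9 * del n ∧
    ‖(X₀ n).val.2 - ((Real.sqrt 2 / 2 : ℝ) : ℂ)‖ ≤ 9 * del n := by
  set δ := del n with hδ
  have h0 : 0 < δ := del_pos n
  have h1 : δ ≤ 1 := del_le_one n
  have h7 : δ ≤ 1 / 7 := del_le n
  obtain ⟨r₀, hr0, hrp, hmax⟩ := exists_max h0 h1
  obtain ⟨hR1, hR2⟩ := rat_bounds h0 h1 hmax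
  set R := rat δ r₀ with hR
  set m := Real.sqrt R with hm
  have hm2 : m ^ 2 = R := Real.sq_sqrt (by linarith)
  have hm0 : 0 ≤ m := Real.sqrt_nonneg _
  have hm1 : 1 ≤ m := by
    rw [hm]; exact Real.one_le_sqrt.2 hR1
  have hmp : 0 < m := by linarith
  have hmδ : m ≤ 1 + δ := by nlinarith
  -- the linear map
  have hbound : ∀ x : XX, ‖((m⁻¹ : ℝ) : ℂ) • lp.single 2 n (Blk.mk n (swp (x n).val))‖ ≤ 1 * ‖x‖ := by
    intro x
    rw [norm_smul, Complex.norm_real, Real.norm_of_nonneg (inv_nonneg.2 hm0),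
      lp.norm_single (by norm_num), Blk.norm_def, Blk.val_mk, one_mul]
    have h2 : Real.sqrt (Nsq (del n) (swp (x n).val)) ≤ m * ‖x n‖ := by
      rw [Blk.norm_def, hm, ← Real.sqrt_mul (by linarith)]
      exact Real.sqrt_le_sqrt (Nsq_swp_le h0 h1 hmax _)
    have h3 : ‖x n‖ ≤ ‖x‖ := lp.norm_apply_le_norm (by norm_num) x n
    calc m⁻¹ * Real.sqrt (Nsq (del n) (swp (x n).val)) ≤ m⁻¹ * (m * ‖x n‖) := by gcongr
      _ = ‖x n‖ := by field_simp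
      _ ≤ ‖x‖ := h3
  let Tl : XX →ₗ[ℂ] XX :=
    { toFun := fun x => ((m⁻¹ : ℝ) : ℂ) • lp.single 2 n (Blk.mk n (swp (x n).val))
      map_add' := by
        intro x y
        have e : Blk.mk n (swp ((x + y : XX) n).val) =
            Blk.mk n (swp (x n).val) + Blk.mk n (swp (y n).val) := rfl
        rw [e, lp.single_add, smul_add]
      map_smul' := by
        intro c x
        have e : Blk.mk n (swp ((c • x : XX) n).val) = c • Blk.mk n (swp (x n).val) := rfl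
        rw [e, lp.single_smul, smul_comm]; rfl }
  let T : XX →L[ℂ] XX := Tl.mkContinuous 1 hbound
  have hTdef : ∀ x : XX, T x = ((m⁻¹ : ℝ) : ℂ) • lp.single 2 n (Blk.mk n (swp (x n).val)) :=
    fun x => rfl
  have hTle : ‖T‖ ≤ 1 := Tl.mkContinuous_norm_le zero_le_one hbound
  have hTs : ∀ v, T (lp.single 2 n (Blk.mk n v)) =
      ((m⁻¹ : ℝ) : ℂ) • lp.single 2 n (Blk.mk n (swp v)) := by
    intro v
    rw [hTdef, lp.single_apply_self, Blk.val_mk]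
  -- the base point
  set q := δ * r₀ with hq
  have hq0 : 0 ≤ q := by positivity
  have hpi : Real.pi ≤ 3.15 := Real.pi_lt_d2.le
  have hq6 : q ≤ 6.3 * δ := by rw [hq]; nlinarith
  have hq1 : q ≤ 1 := by linarith
  have hny := nsq_y0 hq0 hq1
  have hqy := qf_y0 hq0 hq1
  set y := y0 q with hy
  have hyw : Nsq δ y = wt δ r₀ := by
    rw [Nsq_eq_wt, hny, hqy, one_mul, div_one, hq, mul_div_cancel_left₀ _ h0.ne']
  have hysw : Nsq δ (swp y) = R * wt δ r₀ := by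
    rw [Nsq_swp_eq, hny, hqy, one_mul, div_one, hq, mul_div_cancel_left₀ _ h0.ne', hR]
    unfold rat
    rw [div_mul_cancel₀ _ (wt_pos h0 h1 r₀).ne']
  have hwp := wt_pos h0 h1 r₀
  set s := Real.sqrt (wt δ r₀) with hs
  have hs2 : s ^ 2 = wt δ r₀ := Real.sq_sqrt hwp.le
  have hs0 : 0 < s := Real.sqrt_pos.2 hwp
  set c : ℝ := s⁻¹ with hc
  have hcp : 0 < c := inv_pos.2 hs0
  have hcs : c * s = 1 := inv_mul_cancel₀ hs0.ne'
  have hwb := wt_bounds h0 h1 r₀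
  have hδ2 : δ ^ 2 ≤ δ / 7 := by nlinarith
  have hcb : |c - 1| ≤ δ / 100 := by
    have hs_lo : 1 - δ ^ 2 / 1000 ≤ s := by
      rw [hs]; apply Real.le_sqrt_of_sq_le; nlinarith
    have hs_hi : s ≤ 1 + δ ^ 2 / 1000 := by
      rw [hs]; apply Real.sqrt_le_iff.2; constructor <;> nlinarith
    rw [abs_le]
    constructor <;> nlinarith
  set x₀ : ℂ × ℂ := (c : ℂ) • y with hx₀
  set X₀ : XX := lp.single 2 n (Blk.mk n x₀) with hX₀
  have hX₀n : ‖X₀‖ = 1 := by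
    rw [hX₀, lp.norm_single (by norm_num), Blk.norm_def, Blk.val_mk, hx₀, N_smul,
      Complex.norm_real, Real.norm_of_nonneg hcp.le]
    rw [show Nsq (del n) y = wt δ r₀ from hyw]
    exact hcs
  have hTX : T X₀ = ((m⁻¹ : ℝ) : ℂ) • lp.single 2 n (Blk.mk n (swp x₀)) := hTs x₀
  have hTX₀ : ‖T X₀‖ = 1 := by
    rw [hTX, norm_smul, Complex.norm_real, Real.norm_of_nonneg (inv_nonneg.2 hm0),
      lp.norm_single (by norm_num), Blk.norm_def, Blk.val_mk]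
    have : swp x₀ = (c : ℂ) • swp y := rfl
    rw [this, N_smul, Complex.norm_real, Real.norm_of_nonneg hcp.le,
      show Nsq (del n) (swp y) = R * wt δ r₀ from hysw, Real.sqrt_mul (by linarith), ← hm, ← hs]
    field_simp
    nlinarith
  refine ⟨T, X₀, m, hm1, hmδ, ?_, hX₀n, hTX₀, ?_, hTs, ?_, ?_⟩
  · apply le_antisymm hTle
    have := T.le_opNorm X₀
    rw [hTX₀, hX₀n, mul_one] at this
    exact this
  · -- distance between `X₀` and `T X₀`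
    have e1 : X₀ - T X₀ = lp.single 2 n (Blk.mk n (x₀ - ((m⁻¹ : ℝ) : ℂ) • swp x₀)) := by
      rw [hTX, Blk.mk_sub, lp.single_sub, Blk.mk_smul ((m⁻¹ : ℝ) : ℂ) (swp x₀), lp.single_smul]
    rw [e1, lp.norm_single (by norm_num), Blk.norm_def, Blk.val_mk]
    obtain ⟨c1, c2⟩ := y0_close hq0 hq1
    set α := Real.sqrt ((1 + q) / 2) with hα
    set β := Real.sqrt ((1 - q) / 2) with hβ
    have e2 : x₀ - ((m⁻¹ : ℝ) : ℂ) • swp x₀ = (c : ℂ) • ((((α - m⁻¹ * β : ℝ)) : ℂ), ((β - m⁻¹ * α : ℝ) : ℂ)) := by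
      rw [hx₀, hy]; unfold swp y0
      rw [← hα, ← hβ]
      ext1 <;> simp <;> ring
    rw [e2, N_smul, Complex.norm_real, Real.norm_of_nonneg hcp.le]
    have hα1 : α ≤ 1 := by rw [hα]; apply Real.sqrt_le_one.2; linarith
    have hβ1 : β ≤ 1 := by rw [hβ]; apply Real.sqrt_le_one.2; linarith
    have hα0 : 0 ≤ α := Real.sqrt_nonneg _
    have hβ0 : 0 ≤ β := Real.sqrt_nonneg _
    have hmi1 : 1 - δ ≤ m⁻¹ := by
      rw [inv_eq_one_div, le_div_iff₀ hmp]; nlinarith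
    have hmi2 : m⁻¹ ≤ 1 := inv_le_one_of_one_le₀ hm1
    have d1 := abs_le.1 c1
    have d2 := abs_le.1 c2
    have u1 : |α - m⁻¹ * β| ≤ 13.6 * δ := by
      rw [abs_le]; constructor <;> nlinarith
    have u2 : |β - m⁻¹ * α| ≤ 13.6 * δ := by
      rw [abs_le]; constructor <;> nlinarith
    have hn2 : nsq ((((α - m⁻¹ * β : ℝ)) : ℂ), ((β - m⁻¹ * α : ℝ) : ℂ)) ≤ 2 * (13.6 * δ) ^ 2 := by
      unfold nsq
      simp only [Complex.norm_real, Real.norm_eq_abs]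
      have v1 : |α - m⁻¹ * β| ^ 2 ≤ (13.6 * δ) ^ 2 := by gcongr
      have v2 : |β - m⁻¹ * α| ^ 2 ≤ (13.6 * δ) ^ 2 := by gcongr
      linarith
    have hN2 := (Nsq_bounds h0 h1 ((((α - m⁻¹ * β : ℝ)) : ℂ), ((β - m⁻¹ * α : ℝ) : ℂ))).2
    have hN3 : Real.sqrt (Nsq (del n) ((((α - m⁻¹ * β : ℝ)) : ℂ), ((β - m⁻¹ * α : ℝ) : ℂ))) ≤
        19.4 * δ := by
      apply Real.sqrt_le_iff.2
      refine ⟨by positivity, ?_⟩
      have hN2' : Nsq (del n) ((((α - m⁻¹ * β : ℝ)) : ℂ), ((β - m⁻¹ * α : ℝ) : ℂ)) ≤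
        1001 / 1000 * nsq ((((α - m⁻¹ * β : ℝ)) : ℂ), ((β - m⁻¹ * α : ℝ) : ℂ)) := hN2
      have hδp : 0 < δ ^ 2 := by positivity
      nlinarith
    have hc1 := (abs_le.1 hcb).2
    calc c * Real.sqrt (Nsq (del n) ((((α - m⁻¹ * β : ℝ)) : ℂ), ((β - m⁻¹ * α : ℝ) : ℂ)))
        ≤ (1 + 1 / 700) * (19.4 * δ) := by
          gcongr
          linarith
      _ ≤ 20 * δ := by nlinarith
  · have e3 : (X₀ n).val.1 = ((c * Real.sqrt ((1 + q) / 2) : ℝ) : ℂ) := by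
      rw [hX₀, lp.single_apply_self, Blk.val_mk, hx₀, hy]
      unfold y0; simp
    obtain ⟨c1, c2⟩ := y0_close hq0 hq1
    rw [e3, ← Complex.ofReal_sub, Complex.norm_real, Real.norm_eq_abs]
    set α := Real.sqrt ((1 + q) / 2) with hα
    have hα1 : α ≤ 1 := by rw [hα]; apply Real.sqrt_le_one.2; linarith
    have hα0 : 0 ≤ α := Real.sqrt_nonneg _
    have d1 := abs_le.1 c1
    have d2 := abs_le.1 hcb
    rw [abs_le]; constructor <;> nlinarith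
  · have e3 : (X₀ n).val.2 = ((c * Real.sqrt ((1 - q) / 2) : ℝ) : ℂ) := by
      rw [hX₀, lp.single_apply_self, Blk.val_mk, hx₀, hy]
      unfold y0; simp
    obtain ⟨c1, c2⟩ := y0_close hq0 hq1
    rw [e3, ← Complex.ofReal_sub, Complex.norm_real, Real.norm_eq_abs]
    set β := Real.sqrt ((1 - q) / 2) with hβ
    have hβ1 : β ≤ 1 := by rw [hβ]; apply Real.sqrt_le_one.2; linarith
    have hβ0 : 0 ≤ β := Real.sqrt_nonneg _
    have d1 := abs_le.1 c2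
    have d2 := abs_le.1 hcb
    rw [abs_le]; constructor <;> nlinarith

end Pool.Agent.T2H75.NU
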