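import Pool.Agent.T2H75.NU.Block

/-!
# The space is 2-convex and 2-smooth
-/

namespace Pool.Agent.T2H75.NU

open scoped ENNReal

lemma norm_sq_eq (f : XX) : ‖f‖ ^ 2 = ∑' i, ‖f i‖ ^ 2 := by
  have h := lp.norm_rpow_eq_tsum (p := 2) (by norm_num) f
  have h2 : (2 : ℝ≥0∞).toReal = (2 : ℕ) := by norm_num
  rw [h2] at h
  simpa only [Real.rpow_natCast] using h

lemma summable_sq (f : XX) : Summable fun i => ‖f i‖ ^ 2 := by
  have h := (lp.memℓp f).summable (by norm_num)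
  have h2 : (2 : ℝ≥0∞).toReal = (2 : ℕ) := by norm_num
  rw [h2] at h
  simpa only [Real.rpow_natCast] using h

lemma hasSum_sq (f : XX) : HasSum (fun i => ‖f i‖ ^ 2) (‖f‖ ^ 2) := by
  rw [norm_sq_eq]; exact (summable_sq f).hasSum

lemma block_two (n : ℕ) (x y : Blk n) :
    1 / 2 * ‖y‖ ^ 2 ≤ (‖x + y‖ ^ 2 + ‖x - y‖ ^ 2) / 2 - ‖x‖ ^ 2 ∧
      (‖x + y‖ ^ 2 + ‖x - y‖ ^ 2) / 2 - ‖x‖ ^ 2 ≤ 2 * ‖y‖ ^ 2 := by
  have t1 := Nsq_taylor (del_pos n) (del_le_one n) x.val y.val
  have t2 := Nsq_taylor (del_pos n) (del_le_one n) x.val (-y.val)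
  have hb := Nsq_bounds (del_pos n) (del_le_one n) y.val
  have hn : nsq (-y.val) = nsq y.val := by
    have := nsq_smul (-1) y.val
    simpa using this
  have hd : dN (del n) x.val (-y.val) = - dN (del n) x.val y.val := by
    have := dN_rsmul (del n) x.val y.val (-1)
    simpa using this
  rw [hn, hd] at t2
  rw [Blk.norm_sq, Blk.norm_sq, Blk.norm_sq, Blk.norm_sq, Blk.val_add, Blk.val_sub,
    sub_eq_add_neg x.val]
  have := nsq_nonneg y.val
  constructor <;> linarith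

lemma two_XX : TwoConvexSmooth XX (1 / 2) 2 := by
  intro x y
  have h1 := hasSum_sq (x + y)
  have h2 := hasSum_sq (x - y)
  have h3 := hasSum_sq x
  have h4 := hasSum_sq y
  have h5 := ((h1.add h2).div_const 2).sub h3
  constructor
  · refine hasSum_le (fun i => ?_) (h4.mul_left (1 / 2)) h5
    simpa using (block_two i (x i) (y i)).1
  · refine hasSum_le (fun i => ?_) h5 (h4.mul_left 2)
    simpa using (block_two i (x i) (y i)).2

end Pool.Agent.T2H75.NU
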